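import Pool.Agent.H94C.Planar
import Pool.Agent.H55.Cov.Body

/-!
# Covering a planar convex body by small homothets
-/

set_option autoImplicit false

namespace Pool.Agent.H94C

open Finset Pool.Agent.H55.Homo

/-- a largest parallelogram of the body -/
structure PF (K : Set E2) where
  p : E2
  u : E2
  v : E2
  h00 : p ∈ K
  h10 : p + u ∈ K
  h01 : p + v ∈ K
  h11 : p + u + v ∈ K
  pos : 0 < dt u v
  mx : ∀ q q' q'' : E2, q ∈ K → q + q' ∈ K → q + q'' ∈ K → q + q' + q'' ∈ K →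
    dt q' q'' ≤ dt u v

theorem exists_pf (K : Set E2) (hc : IsCompact K) (hi : (interior K).Nonempty) :
    Nonempty (PF K) := by
  obtain ⟨p, hp⟩ := hi
  obtain ⟨ε, hε, hball⟩ := Metric.isOpen_iff.1 isOpen_interior p hp
  have hsub : Metric.ball p ε ⊆ K := hball.trans interior_subset
  have hpK : p ∈ K := interior_subset hp
  set S : Set (E2 × E2 × E2) := (K ×ˢ (K ×ˢ K)) ∩ {t | t.2.1 + t.2.2 - t.1 ∈ K} with hS
  have hScomp : IsCompact S := (hc.prod (hc.prod hc)).inter_right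
    (hc.isClosed.preimage (f := fun t : E2 × E2 × E2 => t.2.1 + t.2.2 - t.1) (by fun_prop))
  obtain ⟨⟨a, b, c⟩, ⟨⟨ha, hb, hcc⟩, hd⟩, hmax⟩ := hScomp.exists_isMaxOn
    ⟨(p, p, p), ⟨hpK, hpK, hpK⟩, by simpa using hpK⟩
    (f := fun q : E2 × E2 × E2 => dt (q.2.1 - q.1) (q.2.2 - q.1))
    (dt_cont (by fun_prop) (by fun_prop)).continuousOn
  simp only at ha hb hcc
  have hd' : b + c - a ∈ K := hd
  have hM : ∀ q q' q'' : E2, q ∈ K → q + q' ∈ K → q + q'' ∈ K → q + q' + q'' ∈ K →
      dt q' q'' ≤ dt (b - a) (c - a) := by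
    intro q q' q'' h1 h2 h3 h4
    have hmem : (q, q + q', q + q'') ∈ S := by
      refine ⟨⟨h1, h2, h3⟩, ?_⟩
      show q + q' + (q + q'') - q ∈ K
      have e : q + q' + (q + q'') - q = q + q' + q'' := by abel
      rw [e]
      exact h4
    have h5 : dt (q + q' - q) (q + q'' - q) ≤ dt (b - a) (c - a) := hmax hmem
    rwa [add_sub_cancel_left, add_sub_cancel_left] at h5
  have hpos : 0 < dt (b - a) (c - a) := by
    set e0 : E2 := EuclideanSpace.single 0 (ε / 4) with he0
    set e1 : E2 := EuclideanSpace.single 1 (ε / 4) with he1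
    have n0 : ‖e0‖ = ε / 4 := by
      rw [he0, EuclideanSpace.norm_single, Real.norm_of_nonneg (by positivity)]
    have n1 : ‖e1‖ = ε / 4 := by
      rw [he1, EuclideanSpace.norm_single, Real.norm_of_nonneg (by positivity)]
    have h0 : p + e0 ∈ K := hsub (by
      rw [Metric.mem_ball, dist_eq_norm, add_sub_cancel_left, n0]
      linarith)
    have h1 : p + e1 ∈ K := hsub (by
      rw [Metric.mem_ball, dist_eq_norm, add_sub_cancel_left, n1]
      linarith)
    have h2 : p + e0 + e1 ∈ K := hsub (by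
      rw [Metric.mem_ball, dist_eq_norm, add_assoc, add_sub_cancel_left]
      have := norm_add_le e0 e1
      linarith)
    refine lt_of_lt_of_le ?_ (hM p e0 e1 hpK h0 h1 h2)
    rw [dt, he0, he1]
    simp
    positivity
  refine ⟨⟨a, b - a, c - a, ha, by simpa using hb, by simpa using hcc, ?_, hpos, hM⟩⟩
  have e : a + (b - a) + (c - a) = b + c - a := by abel
  rw [e]
  exact hd'

variable {K : Set E2}

namespace PF

/-- the body in coordinates -/
def C (F : PF K) : Set (ℝ × ℝ) := {c | F.p + c.1 • F.u + c.2 • F.v ∈ K}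

/-- coordinates -/
noncomputable def co (F : PF K) (z : E2) : ℝ × ℝ :=
  (dt (z - F.p) F.v / dt F.u F.v, dt F.u (z - F.p) / dt F.u F.v)

theorem expand (F : PF K) (z : E2) : F.p + (F.co z).1 • F.u + (F.co z).2 • F.v = z := by
  have hD := F.pos.ne'
  have key : ∀ i : Fin 2, F.p i + (F.co z).1 * F.u i + (F.co z).2 * F.v i = z i := by
    intro i
    unfold co
    simp only
    field_simp
    fin_cases i
    · simp only [dt, PiLp.sub_apply, Fin.zero_eta, Fin.isValue]; ring
    · simp only [dt, PiLp.sub_apply, Fin.mk_one, Fin.isValue]; ring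
  ext i
  simp only [PiLp.add_apply, PiLp.smul_apply, smul_eq_mul]
  exact key i

theorem co_mem (F : PF K) {z : E2} (hz : z ∈ K) : F.co z ∈ F.C := by
  show F.p + (F.co z).1 • F.u + (F.co z).2 • F.v ∈ K
  rw [F.expand]
  exact hz

theorem co_comb (F : PF K) (c : ℝ × ℝ) : F.co (F.p + c.1 • F.u + c.2 • F.v) = c := by
  have hD := F.pos.ne'
  unfold co
  ext
  · simp only
    rw [div_eq_iff hD]
    simp only [dt, PiLp.sub_apply, PiLp.add_apply, PiLp.smul_apply, smul_eq_mul]
    ring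
  · simp only
    rw [div_eq_iff hD]
    simp only [dt, PiLp.sub_apply, PiLp.add_apply, PiLp.smul_apply, smul_eq_mul]
    ring

theorem co_cont (F : PF K) : Continuous F.co := by
  unfold co
  exact ((dt_cont (by fun_prop) (by fun_prop)).div_const _).prodMk
    ((dt_cont (by fun_prop) (by fun_prop)).div_const _)

theorem C_compact (F : PF K) (hc : IsCompact K) : IsCompact F.C := by
  have e : F.C = F.co '' K := by
    ext c
    constructor
    · intro hc'
      exact ⟨_, hc', F.co_comb c⟩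
    · rintro ⟨z, hz, rfl⟩
      exact F.co_mem hz
  rw [e]
  exact hc.image F.co_cont

theorem C_convex (F : PF K) (hK : Convex ℝ K) : Convex ℝ F.C := by
  intro c hc d hd s t hs ht hst
  have h := hK hc hd hs ht hst
  show F.p + (s • c + t • d).1 • F.u + (s • c + t • d).2 • F.v ∈ K
  have hs' : s = 1 - t := by linarith
  subst hs'
  have e : F.p + ((1 - t) • c + t • d).1 • F.u + ((1 - t) • c + t • d).2 • F.v =
      (1 - t) • (F.p + c.1 • F.u + c.2 • F.v) + t • (F.p + d.1 • F.u + d.2 • F.v) := by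
    simp only [Prod.fst_add, Prod.snd_add, Prod.smul_fst, Prod.smul_snd, smul_eq_mul]
    module
  rw [e]
  exact h

theorem c00 (F : PF K) : ((0 : ℝ), (0 : ℝ)) ∈ F.C := by
  show F.p + (0 : ℝ) • F.u + (0 : ℝ) • F.v ∈ K
  simpa using F.h00

theorem c10 (F : PF K) : ((1 : ℝ), (0 : ℝ)) ∈ F.C := by
  show F.p + (1 : ℝ) • F.u + (0 : ℝ) • F.v ∈ K
  simpa using F.h10

theorem c01 (F : PF K) : ((0 : ℝ), (1 : ℝ)) ∈ F.C := by
  show F.p + (0 : ℝ) • F.u + (1 : ℝ) • F.v ∈ K
  simpa using F.h01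

theorem c11 (F : PF K) : ((1 : ℝ), (1 : ℝ)) ∈ F.C := by
  show F.p + (1 : ℝ) • F.u + (1 : ℝ) • F.v ∈ K
  simpa using F.h11

theorem hH (F : PF K) (x y x' y' lam : ℝ) (h1 : (x, y) ∈ F.C) (h2 : (x + lam, y) ∈ F.C)
    (h3 : (x', y') ∈ F.C) (h4 : (x' + lam, y') ∈ F.C) : lam * (y' - y) ≤ 1 := by
  change F.p + x • F.u + y • F.v ∈ K at h1
  change F.p + (x + lam) • F.u + y • F.v ∈ K at h2
  change F.p + x' • F.u + y' • F.v ∈ K at h3
  change F.p + (x' + lam) • F.u + y' • F.v ∈ K at h4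
  have h := F.mx (F.p + x • F.u + y • F.v) (lam • F.u) ((x' - x) • F.u + (y' - y) • F.v) h1
    (by convert h2 using 1; module) (by convert h3 using 1; module)
    (by convert h4 using 1; module)
  have e : dt (lam • F.u) ((x' - x) • F.u + (y' - y) • F.v) = lam * (y' - y) * dt F.u F.v := by
    simp only [dt, PiLp.add_apply, PiLp.smul_apply, smul_eq_mul]
    ring
  rw [e] at h
  by_contra hlt
  push Not at hlt
  have := mul_lt_mul_of_pos_right hlt F.pos
  linarith

theorem hV (F : PF K) (x y x' y' lam : ℝ) (h1 : (x, y) ∈ F.C) (h2 : (x, y + lam) ∈ F.C)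
    (h3 : (x', y') ∈ F.C) (h4 : (x', y' + lam) ∈ F.C) : lam * (x' - x) ≤ 1 := by
  change F.p + x • F.u + y • F.v ∈ K at h1
  change F.p + x • F.u + (y + lam) • F.v ∈ K at h2
  change F.p + x' • F.u + y' • F.v ∈ K at h3
  change F.p + x' • F.u + (y' + lam) • F.v ∈ K at h4
  have h := F.mx (F.p + x • F.u + y • F.v) ((x' - x) • F.u + (y' - y) • F.v) (lam • F.v) h1
    (by convert h3 using 1; module) (by convert h2 using 1; module)
    (by convert h4 using 1; module)
  have e : dt ((x' - x) • F.u + (y' - y) • F.v) (lam • F.v) = lam * (x' - x) * dt F.u F.v := by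
    simp only [dt, PiLp.add_apply, PiLp.smul_apply, smul_eq_mul]
    ring
  rw [e] at h
  by_contra hlt
  push Not at hlt
  have := mul_lt_mul_of_pos_right hlt F.pos
  linarith

/-- a square of side `r` in coordinates is covered by a homothet of ratio `r` -/
theorem square (F : PF K) (hK : Convex ℝ K) {r : ℝ} (hr : 0 < r) (a b : ℝ) :
    ∃ t : E2, ∀ z : E2, a ≤ (F.co z).1 → (F.co z).1 ≤ a + r → b ≤ (F.co z).2 →
      (F.co z).2 ≤ b + r → z ∈ (fun x => r • x + t) '' K := by
  refine ⟨(1 - r) • F.p + a • F.u + b • F.v, fun z h1 h2 h3 h4 => ?_⟩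
  obtain ⟨s, hs⟩ : ∃ s, s = ((F.co z).1 - a) / r := ⟨_, rfl⟩
  obtain ⟨t, ht⟩ : ∃ t, t = ((F.co z).2 - b) / r := ⟨_, rfl⟩
  have hs0 : 0 ≤ s := by rw [hs]; exact div_nonneg (by linarith) hr.le
  have hs1 : s ≤ 1 := by rw [hs, div_le_one hr]; linarith
  have ht0 : 0 ≤ t := by rw [ht]; exact div_nonneg (by linarith) hr.le
  have ht1 : t ≤ 1 := by rw [ht, div_le_one hr]; linarith
  have es : (F.co z).1 = a + r * s := by rw [hs]; field_simp; ring
  have et : (F.co z).2 = b + r * t := by rw [ht]; field_simp; ring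
  have m1 : F.p + s • F.u ∈ K := by
    have := hK F.h00 F.h10 (sub_nonneg.2 hs1) hs0 (by ring)
    convert this using 1
    module
  have m2 : F.p + s • F.u + F.v ∈ K := by
    have := hK F.h01 F.h11 (sub_nonneg.2 hs1) hs0 (by ring)
    convert this using 1
    module
  have m3 : F.p + s • F.u + t • F.v ∈ K := by
    have := hK m1 m2 (sub_nonneg.2 ht1) ht0 (by ring)
    convert this using 1
    module
  refine ⟨_, m3, ?_⟩
  simp only
  conv_rhs => rw [← F.expand z]
  rw [es, et]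
  module

end PF

/-- Copies of a planar convex body of ratios `r i ≤ ρ` with `∑ r i ^ 2 ≥ 2 + 5 ρ` cover it. -/
theorem cover_small (K : Set E2) (hK : Convex ℝ K) (hc : IsCompact K) (hi : (interior K).Nonempty)
    (m : ℕ) (r : Fin m → ℝ) (hr : ∀ i, 0 < r i) {ρ : ℝ} (hρ0 : 0 ≤ ρ) (hρ : ∀ i, r i ≤ ρ)
    (hsum : 2 + 5 * ρ ≤ ∑ i, r i ^ 2) :
    ∃ t : Fin m → E2, K ⊆ ⋃ i, (fun x => r i • x + t i) '' K := by
  classical
  obtain ⟨F⟩ := exists_pf K hc hi
  have hm : 0 < m := by
    rcases Nat.eq_zero_or_pos m with h | h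
    · subst h
      simp at hsum
      linarith
    · exact h
  have hρp : 0 < ρ := lt_of_lt_of_le (hr ⟨0, hm⟩) (hρ _)
  set σ := Tuple.sort (fun i => - r i) with hσ
  have hmono : Monotone ((fun i => - r i) ∘ σ) := Tuple.monotone_sort _
  set x : ℕ → ℝ := fun i => if h : i < m then r (σ ⟨i, h⟩) else 0 with hx
  have hx0 : ∀ i, 0 ≤ x i := by
    intro i
    simp only [hx]
    split_ifs with h
    · exact (hr _).le
    · exact le_rfl
  have hxpos : ∀ i, i < m → 0 < x i := by
    intro i h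
    simp only [hx]
    rw [dif_pos h]
    exact hr _
  have hxanti : Antitone x := by
    intro i j hij
    by_cases hj : j < m
    · have hi' : i < m := lt_of_le_of_lt hij hj
      simp only [hx]
      rw [dif_pos hj, dif_pos hi']
      have := hmono (show (⟨i, hi'⟩ : Fin m) ≤ ⟨j, hj⟩ from hij)
      simp only [Function.comp] at this
      linarith
    · have : x j = 0 := by simp only [hx]; rw [dif_neg hj]
      rw [this]
      exact hx0 i
  have hx1 : x 0 ≤ ρ := by
    simp only [hx]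
    rw [dif_pos hm]
    exact hρ _
  have hxsum : ∑ i ∈ range m, x i ^ 2 = ∑ i, r i ^ 2 := by
    have h3 : ∑ i : Fin m, x i ^ 2 = ∑ i : Fin m, r (σ i) ^ 2 := by
      refine sum_congr rfl fun i _ => ?_
      simp only [hx]
      rw [dif_pos i.2]
    rw [← Fin.sum_univ_eq_sum_range (fun i => x i ^ 2) m, h3]
    exact Equiv.sum_comp σ (fun i => r i ^ 2)
  obtain ⟨p, q, h⟩ := planar_square (F.C_compact hc) (F.C_convex hK) F.c00 F.c10 F.c01 F.c11
    F.hH F.hV hx0 hxanti hxpos hρp hx1 (by rw [hxsum]; exact hsum)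
  have hT : ∀ i : Fin m, ∃ t : E2, ∀ z : E2, p (σ.symm i) ≤ (F.co z).1 →
      (F.co z).1 ≤ p (σ.symm i) + r i → q (σ.symm i) ≤ (F.co z).2 →
      (F.co z).2 ≤ q (σ.symm i) + r i → z ∈ (fun x => r i • x + t) '' K :=
    fun i => F.square hK (hr i) _ _
  choose t ht using hT
  refine ⟨t, fun z hz => ?_⟩
  obtain ⟨i, him, c1, c2, c3, c4⟩ := h (F.co z) (F.co_mem hz)
  have hxi : x i = r (σ ⟨i, him⟩) := by
    simp only [hx]
    rw [dif_pos him]
  rw [hxi] at c2 c4
  have e : ((σ.symm (σ ⟨i, him⟩) : Fin m) : ℕ) = i := by simp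
  refine Set.mem_iUnion.2 ⟨σ ⟨i, him⟩, ht _ z ?_ ?_ ?_ ?_⟩ <;> rw [e]
  · exact c1
  · exact c2
  · exact c3
  · exact c4

end Pool.Agent.H94C
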