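import Pool.Agent.H94C.Planar2
import Pool.Agent.H94C.Cover

/-!
# Covering a planar convex body by one large homothet and small ones
-/

set_option autoImplicit false

namespace Pool.Agent.H94C

open Finset Pool.Agent.H55.Homo

theorem wf_area {C : Set (ℝ × ℝ)} {y0 y1 : ℝ} (L : Lev C y0 y1)
    (H : ∀ x y x' y' lam : ℝ, (x, y) ∈ C → (x + lam, y) ∈ C → (x', y') ∈ C →
      (x' + lam, y') ∈ C → lam * (y' - y) ≤ 1) : ∫ t in y0..y1, wf C t ≤ 2 := by
  obtain ⟨ym, hm0, hm1, hmax⟩ := L.exists_max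
  have hM : ∀ y z lam, y0 ≤ y → y ≤ z → z ≤ y1 → lam ≤ wf C y → lam ≤ wf C z →
      lam * (z - y) ≤ 1 := by
    intro y z lam h1 h2 h3 h4 h5
    rcases le_total lam 0 with hl | hl
    · have := mul_nonneg_of_nonpos_of_nonpos hl (sub_nonpos.2 h2)
      have h6 : lam * (z - y) = -(lam * (y - z)) := by ring
      linarith
    · obtain ⟨u, hu⟩ := L.chord h1 (h2.trans h3)
      obtain ⟨v, hv'⟩ := L.chord (h1.trans h2) h3
      have m1 := hu 0 le_rfl (hl.trans h4)
      have m2 := hu lam hl h4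
      have m3 := hv' 0 le_rfl (hl.trans h5)
      have m4 := hv' lam hl h5
      rw [add_zero] at m1 m3
      exact H u y v z lam m1 m2 m3 m4
  exact area_le_two hm0 hm1 (wf_conc L) (fun t ht => wf_nonneg L ht.1 ht.2)
    (fun t ht => hmax t ht.1 ht.2) (wf_int L _ _) hM

variable {K : Set E2}

/-- A homothet of ratio `lam < 1` and homothets of ratios `r i ≤ ρ` cover `K` if
`2 (1 - lam ^ 2) + (7 + 4 lam) ρ + ρ ^ 2 ≤ ∑ r i ^ 2`. -/
theorem cover_large (K : Set E2) (hK : Convex ℝ K) (hc : IsCompact K) (hi : (interior K).Nonempty)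
    {lam : ℝ} (hl0 : 0 < lam) (hl1 : lam < 1)
    (m : ℕ) (r : Fin m → ℝ) (hr : ∀ i, 0 < r i) {ρ : ℝ} (hρ0 : 0 ≤ ρ) (hρ : ∀ i, r i ≤ ρ)
    (hsum : 2 * (1 - lam ^ 2) + (7 + 4 * lam) * ρ + ρ ^ 2 ≤ ∑ i, r i ^ 2) :
    ∃ t0 : E2, ∃ t : Fin m → E2,
      ∀ z ∈ K, z ∈ (fun x => lam • x + t0) '' K ∨ ∃ i, z ∈ (fun x => r i • x + t i) '' K := by
  classical
  obtain ⟨F⟩ := exists_pf K hc hi
  have hm : 0 < m := by
    rcases Nat.eq_zero_or_pos m with h | h
    · exfalso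
      subst h
      simp only [univ_eq_empty, sum_empty] at hsum
      have h1 : 0 ≤ (7 + 4 * lam) * ρ := mul_nonneg (by linarith) hρ0
      have h2 : 0 ≤ ρ ^ 2 := sq_nonneg ρ
      have h3 : lam ^ 2 < 1 := by nlinarith
      linarith
    · exact h
  have hρp : 0 < ρ := lt_of_lt_of_le (hr ⟨0, hm⟩) (hρ _)
  set σ := Tuple.sort (fun i => - r i) with hσ
  have hmono : Monotone ((fun i => - r i) ∘ σ) := Tuple.monotone_sort _
  set x : ℕ → ℝ := fun i => if h : i < m then r (σ ⟨i, h⟩) else 0 with hx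
  have hx0 : ∀ i, 0 ≤ x i := by
    intro i
    simp only [hx]
    split_ifs with h
    · exact (hr _).le
    · exact le_rfl
  have hxpos : ∀ i, i < m → 0 < x i := by
    intro i h
    simp only [hx]
    rw [dif_pos h]
    exact hr _
  have hxanti : Antitone x := by
    intro i j hij
    by_cases hj : j < m
    · have hi' : i < m := lt_of_le_of_lt hij hj
      simp only [hx]
      rw [dif_pos hj, dif_pos hi']
      have := hmono (show (⟨i, hi'⟩ : Fin m) ≤ ⟨j, hj⟩ from hij)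
      simp only [Function.comp] at this
      linarith
    · have : x j = 0 := by simp only [hx]; rw [dif_neg hj]
      rw [this]
      exact hx0 i
  have hx1 : x 0 ≤ ρ := by
    simp only [hx]
    rw [dif_pos hm]
    exact hρ _
  have hxsum : ∑ i ∈ range m, x i ^ 2 = ∑ i, r i ^ 2 := by
    have h3 : ∑ i : Fin m, x i ^ 2 = ∑ i : Fin m, r (σ i) ^ 2 := by
      refine sum_congr rfl fun i _ => ?_
      simp only [hx]
      rw [dif_pos i.2]
    rw [← Fin.sum_univ_eq_sum_range (fun i => x i ^ 2) m, h3]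
    exact Equiv.sum_comp σ (fun i => r i ^ 2)
  -- the levels
  have hC := F.C_compact hc
  have hCK := F.C_convex hK
  obtain ⟨y0, y1, L⟩ := exists_lev hC hCK ⟨_, F.c00⟩
  have hlt : y0 < y1 := by
    have h1 := L.h0 _ F.c00
    have h2 := L.h1 _ F.c01
    simp only at h1 h2
    linarith
  have hv : y1 - y0 ≤ 2 := by
    obtain ⟨c, hcc, h1⟩ := L.e0
    obtain ⟨d, hd, h2⟩ := L.e1
    rw [← h1, ← h2]
    exact height_le_two hCK F.c00 F.c10 F.c01 F.c11 F.hH hcc hd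
  have ha : Ext F.C ≤ 2 := by
    obtain ⟨c, hcc, d, hd, h1, -⟩ := ext_spec hC ⟨_, F.c00⟩
    rw [← h1]
    have hKs : Convex ℝ (Prod.swap ⁻¹' F.C : Set (ℝ × ℝ)) := by
      intro u hu v hv' s t hs ht hst
      have := hCK hu hv' hs ht hst
      exact this
    exact height_le_two (C := Prod.swap ⁻¹' F.C) hKs F.c00 F.c01 F.c10 F.c11
      (fun x y x' y' lam m1 m2 m3 m4 => F.hV y x y' x' lam m1 m2 m3 m4)
      (c := Prod.swap c) (d := Prod.swap d) (by simpa using hcc) (by simpa using hd)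
  obtain ⟨P, hP, hP2⟩ := L.e1
  obtain ⟨p, q, h⟩ := planar_large L hlt hP hP2 hv ha (wf_area L F.hH) hl0 hl1.le hx0 hxanti hxpos
    hρp hx1 (by rw [hxsum]; exact hsum)
  have hT : ∀ i : Fin m, ∃ t : E2, ∀ z : E2, p (σ.symm i) ≤ (F.co z).1 →
      (F.co z).1 ≤ p (σ.symm i) + r i → q (σ.symm i) ≤ (F.co z).2 →
      (F.co z).2 ≤ q (σ.symm i) + r i → z ∈ (fun x => r i • x + t) '' K :=
    fun i => F.square hK (hr i) _ _
  choose t ht using hT
  refine ⟨(1 - lam) • (F.p + P.1 • F.u + P.2 • F.v), t, fun z hz => ?_⟩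
  by_cases hzc : F.co z ∈ hom F.C lam P
  · left
    obtain ⟨c, hcC, hcz⟩ := hzc
    refine ⟨F.p + c.1 • F.u + c.2 • F.v, hcC, ?_⟩
    simp only
    conv_rhs => rw [← F.expand z]
    rw [hcz]
    module
  · right
    obtain ⟨i, him, c1, c2, c3, c4⟩ := h (F.co z) (F.co_mem hz) hzc
    have hxi : x i = r (σ ⟨i, him⟩) := by
      simp only [hx]
      rw [dif_pos him]
    rw [hxi] at c2 c4
    have e : ((σ.symm (σ ⟨i, him⟩) : Fin m) : ℕ) = i := by simp
    refine ⟨σ ⟨i, him⟩, ht _ z ?_ ?_ ?_ ?_⟩ <;> rw [e]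
    · exact c1
    · exact c2
    · exact c3
    · exact c4

end Pool.Agent.H94C
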