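import Mathlib

/-!
# Horizontal extents of the parts of a compact convex set of the plane below and above a level
-/

set_option autoImplicit false

namespace Pool.Agent.H94C

open Set

/-- horizontal extent -/
noncomputable def Ext (D : Set (ℝ × ℝ)) : ℝ := sSup {t | ∃ c ∈ D, ∃ d ∈ D, t = d.1 - c.1}

theorem ext_spec {D : Set (ℝ × ℝ)} (hD : IsCompact D) (hne : D.Nonempty) :
    ∃ c ∈ D, ∃ d ∈ D, d.1 - c.1 = Ext D ∧ ∀ e ∈ D, c.1 ≤ e.1 ∧ e.1 ≤ d.1 := by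
  obtain ⟨c, hc, hc'⟩ := hD.exists_isMinOn hne (f := fun e : ℝ × ℝ => e.1)
    continuous_fst.continuousOn
  obtain ⟨d, hd, hd'⟩ := hD.exists_isMaxOn hne (f := fun e : ℝ × ℝ => e.1)
    continuous_fst.continuousOn
  have h : ∀ e ∈ D, c.1 ≤ e.1 ∧ e.1 ≤ d.1 := fun e he => ⟨hc' he, hd' he⟩
  refine ⟨c, hc, d, hd, ?_, h⟩
  have hg : IsGreatest {t | ∃ c ∈ D, ∃ d ∈ D, t = d.1 - c.1} (d.1 - c.1) := by
    refine ⟨⟨c, hc, d, hd, rfl⟩, ?_⟩
    rintro t ⟨e, he, f, hf, rfl⟩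
    have h1 := h e he
    have h2 := h f hf
    linarith
  exact hg.csSup_eq.symm

theorem le_ext {D : Set (ℝ × ℝ)} (hD : IsCompact D) {c d : ℝ × ℝ} (hc : c ∈ D) (hd : d ∈ D) :
    d.1 - c.1 ≤ Ext D := by
  obtain ⟨e, -, f, -, h1, h2⟩ := ext_spec hD ⟨c, hc⟩
  have h3 := h2 c hc
  have h4 := h2 d hd
  linarith

/-- the part below -/
def lowP (C : Set (ℝ × ℝ)) (y : ℝ) : Set (ℝ × ℝ) := {c | c ∈ C ∧ c.2 ≤ y}

/-- the part above -/
def upP (C : Set (ℝ × ℝ)) (y : ℝ) : Set (ℝ × ℝ) := {c | c ∈ C ∧ y ≤ c.2}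

/-- A compact convex set with its extreme levels -/
structure Lev (C : Set (ℝ × ℝ)) (y0 y1 : ℝ) : Prop where
  hc : IsCompact C
  hK : Convex ℝ C
  h0 : ∀ c ∈ C, y0 ≤ c.2
  h1 : ∀ c ∈ C, c.2 ≤ y1
  e0 : ∃ c ∈ C, c.2 = y0
  e1 : ∃ c ∈ C, c.2 = y1

variable {C : Set (ℝ × ℝ)} {y0 y1 : ℝ}

theorem comb (hK : Convex ℝ C) {c d : ℝ × ℝ} (hc : c ∈ C) (hd : d ∈ C) {θ : ℝ} (h0 : 0 ≤ θ)
    (h1 : θ ≤ 1) : ((1 - θ) * c.1 + θ * d.1, (1 - θ) * c.2 + θ * d.2) ∈ C := by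
  have := hK hc hd (sub_nonneg.2 h1) h0 (by ring)
  have e : ((1 - θ) * c.1 + θ * d.1, (1 - θ) * c.2 + θ * d.2) = (1 - θ) • c + θ • d :=
    Prod.ext (by simp) (by simp)
  rw [e]
  exact this

theorem cross (hK : Convex ℝ C) {c d : ℝ × ℝ} (hc : c ∈ C) (hd : d ∈ C) {y : ℝ} (h1 : c.2 ≤ y)
    (h2 : y ≤ d.2) : ∃ e ∈ C, e.2 = y ∧ e.1 ≤ max c.1 d.1 ∧ min c.1 d.1 ≤ e.1 := by
  rcases (h1.trans h2).eq_or_lt with h | h
  · exact ⟨c, hc, by linarith, le_max_left _ _, min_le_left _ _⟩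
  · have hd0 : 0 < d.2 - c.2 := sub_pos.2 h
    set θ := (y - c.2) / (d.2 - c.2) with hθ
    have hθ0 : 0 ≤ θ := div_nonneg (by linarith) hd0.le
    have hθ1 : θ ≤ 1 := by rw [hθ, div_le_one hd0]; linarith
    have hθy : θ * (d.2 - c.2) = y - c.2 := by rw [hθ]; field_simp
    refine ⟨_, comb hK hc hd hθ0 hθ1, ?_, ?_, ?_⟩
    · simp only
      linarith
    · simp only
      have e1 : (1 - θ) * c.1 ≤ (1 - θ) * max c.1 d.1 :=
        mul_le_mul_of_nonneg_left (le_max_left _ _) (by linarith)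
      have e2 : θ * d.1 ≤ θ * max c.1 d.1 := mul_le_mul_of_nonneg_left (le_max_right _ _) hθ0
      linarith
    · simp only
      have e1 : (1 - θ) * min c.1 d.1 ≤ (1 - θ) * c.1 :=
        mul_le_mul_of_nonneg_left (min_le_left _ _) (by linarith)
      have e2 : θ * min c.1 d.1 ≤ θ * d.1 := mul_le_mul_of_nonneg_left (min_le_right _ _) hθ0
      linarith

namespace Lev

theorem low_compact (L : Lev C y0 y1) (y : ℝ) : IsCompact (lowP C y) :=
  L.hc.inter_right (isClosed_le continuous_snd continuous_const)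

theorem up_compact (L : Lev C y0 y1) (y : ℝ) : IsCompact (upP C y) :=
  L.hc.inter_right (isClosed_le continuous_const continuous_snd)

theorem low_ne (L : Lev C y0 y1) {y : ℝ} (h : y0 ≤ y) : (lowP C y).Nonempty := by
  obtain ⟨c, hc, h'⟩ := L.e0
  exact ⟨c, hc, by linarith⟩

theorem up_ne (L : Lev C y0 y1) {y : ℝ} (h : y ≤ y1) : (upP C y).Nonempty := by
  obtain ⟨c, hc, h'⟩ := L.e1
  exact ⟨c, hc, by linarith⟩

theorem ne (L : Lev C y0 y1) : C.Nonempty := by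
  obtain ⟨c, hc, -⟩ := L.e0
  exact ⟨c, hc⟩

theorem le01 (L : Lev C y0 y1) : y0 ≤ y1 := by
  obtain ⟨c, hc, h⟩ := L.e0
  rw [← h]
  exact L.h1 c hc

theorem A_le (L : Lev C y0 y1) {y : ℝ} (h : y0 ≤ y) : Ext (lowP C y) ≤ Ext C := by
  obtain ⟨c, hc, d, hd, h1, -⟩ := ext_spec (L.low_compact y) (L.low_ne h)
  rw [← h1]
  exact le_ext L.hc hc.1 hd.1

theorem B_le (L : Lev C y0 y1) {y : ℝ} (h : y ≤ y1) : Ext (upP C y) ≤ Ext C := by
  obtain ⟨c, hc, d, hd, h1, -⟩ := ext_spec (L.up_compact y) (L.up_ne h)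
  rw [← h1]
  exact le_ext L.hc hc.1 hd.1

theorem A_nonneg (L : Lev C y0 y1) {y : ℝ} (h : y0 ≤ y) : 0 ≤ Ext (lowP C y) := by
  obtain ⟨c, hc⟩ := L.low_ne h
  have := le_ext (L.low_compact y) hc hc
  linarith

theorem B_nonneg (L : Lev C y0 y1) {y : ℝ} (h : y ≤ y1) : 0 ≤ Ext (upP C y) := by
  obtain ⟨c, hc⟩ := L.up_ne h
  have := le_ext (L.up_compact y) hc hc
  linarith

theorem A_mono (L : Lev C y0 y1) {y z : ℝ} (h : y0 ≤ y) (hyz : y ≤ z) :
    Ext (lowP C y) ≤ Ext (lowP C z) := by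
  obtain ⟨c, hc, d, hd, h1, -⟩ := ext_spec (L.low_compact y) (L.low_ne h)
  rw [← h1]
  exact le_ext (L.low_compact z) ⟨hc.1, hc.2.trans hyz⟩ ⟨hd.1, hd.2.trans hyz⟩

theorem B_anti (L : Lev C y0 y1) {y z : ℝ} (h : z ≤ y1) (hyz : y ≤ z) :
    Ext (upP C z) ≤ Ext (upP C y) := by
  obtain ⟨c, hc, d, hd, h1, -⟩ := ext_spec (L.up_compact z) (L.up_ne h)
  rw [← h1]
  exact le_ext (L.up_compact y) ⟨hc.1, hyz.trans hc.2⟩ ⟨hd.1, hyz.trans hd.2⟩

theorem A_conc (L : Lev C y0 y1) : ConcaveOn ℝ (Icc y0 y1) fun y => Ext (lowP C y) := by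
  refine ⟨convex_Icc _ _, fun y hy z hz s t hs ht hst => ?_⟩
  obtain ⟨c, hc, d, hd, h1, -⟩ := ext_spec (L.low_compact y) (L.low_ne hy.1)
  obtain ⟨e, he, f, hf, h2, -⟩ := ext_spec (L.low_compact z) (L.low_ne hz.1)
  simp only [smul_eq_mul]
  rw [← h1, ← h2]
  have m1 : s • c + t • e ∈ lowP C (s * y + t * z) := by
    refine ⟨L.hK hc.1 he.1 hs ht hst, ?_⟩
    have e1 := mul_le_mul_of_nonneg_left hc.2 hs
    have e2 := mul_le_mul_of_nonneg_left he.2 ht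
    simp only [Prod.snd_add, Prod.smul_snd, smul_eq_mul]
    linarith
  have m2 : s • d + t • f ∈ lowP C (s * y + t * z) := by
    refine ⟨L.hK hd.1 hf.1 hs ht hst, ?_⟩
    have e1 := mul_le_mul_of_nonneg_left hd.2 hs
    have e2 := mul_le_mul_of_nonneg_left hf.2 ht
    simp only [Prod.snd_add, Prod.smul_snd, smul_eq_mul]
    linarith
  have := le_ext (L.low_compact _) m1 m2
  simp only [Prod.fst_add, Prod.smul_fst, smul_eq_mul] at this
  linarith

theorem B_conc (L : Lev C y0 y1) : ConcaveOn ℝ (Icc y0 y1) fun y => Ext (upP C y) := by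
  refine ⟨convex_Icc _ _, fun y hy z hz s t hs ht hst => ?_⟩
  obtain ⟨c, hc, d, hd, h1, -⟩ := ext_spec (L.up_compact y) (L.up_ne hy.2)
  obtain ⟨e, he, f, hf, h2, -⟩ := ext_spec (L.up_compact z) (L.up_ne hz.2)
  simp only [smul_eq_mul]
  rw [← h1, ← h2]
  have m1 : s • c + t • e ∈ upP C (s * y + t * z) := by
    refine ⟨L.hK hc.1 he.1 hs ht hst, ?_⟩
    have e1 := mul_le_mul_of_nonneg_left hc.2 hs
    have e2 := mul_le_mul_of_nonneg_left he.2 ht
    simp only [Prod.snd_add, Prod.smul_snd, smul_eq_mul]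
    linarith
  have m2 : s • d + t • f ∈ upP C (s * y + t * z) := by
    refine ⟨L.hK hd.1 hf.1 hs ht hst, ?_⟩
    have e1 := mul_le_mul_of_nonneg_left hd.2 hs
    have e2 := mul_le_mul_of_nonneg_left hf.2 ht
    simp only [Prod.snd_add, Prod.smul_snd, smul_eq_mul]
    linarith
  have := le_ext (L.up_compact _) m1 m2
  simp only [Prod.fst_add, Prod.smul_fst, smul_eq_mul] at this
  linarith

/-- two points of the strip between the levels `y` and `z` -/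
theorem strip_two (L : Lev C y0 y1) {y z : ℝ} {c d : ℝ × ℝ} (hyz : y ≤ z)
    (hc : c ∈ C) (h1 : y ≤ c.2) (h2 : c.2 ≤ z) (hd : d ∈ C) (h3 : y ≤ d.2) (h4 : d.2 ≤ z) :
    d.1 - c.1 ≤ Ext (lowP C z) + Ext (upP C y) - Ext C := by
  obtain ⟨p, hp, q, hq, h5, -⟩ := ext_spec L.hc L.ne
  rw [← h5]
  have hcl : c ∈ lowP C z := ⟨hc, h2⟩
  have hcu : c ∈ upP C y := ⟨hc, h1⟩
  have hdl : d ∈ lowP C z := ⟨hd, h4⟩
  have hdu : d ∈ upP C y := ⟨hd, h3⟩
  rcases le_total p.2 z with hpz | hpz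
  · have hpl : p ∈ lowP C z := ⟨hp, hpz⟩
    rcases le_total q.2 z with hqz | hqz
    · have hql : q ∈ lowP C z := ⟨hq, hqz⟩
      have := le_ext (L.low_compact z) hpl hql
      have := le_ext (L.up_compact y) hcu hdu
      linarith
    · have hqu : q ∈ upP C y := ⟨hq, by linarith⟩
      have := le_ext (L.low_compact z) hpl hdl
      have := le_ext (L.up_compact y) hcu hqu
      linarith
  · have hpu : p ∈ upP C y := ⟨hp, by linarith⟩
    rcases le_total q.2 z with hqz | hqz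
    · have hql : q ∈ lowP C z := ⟨hq, hqz⟩
      have := le_ext (L.low_compact z) hcl hql
      have := le_ext (L.up_compact y) hpu hdu
      linarith
    · have hqu : q ∈ upP C y := ⟨hq, by linarith⟩
      have := le_ext (L.low_compact z) hcl hdl
      have := le_ext (L.up_compact y) hpu hqu
      linarith

theorem exists_level (L : Lev C y0 y1) {y : ℝ} (h0 : y0 ≤ y) (h1 : y ≤ y1) :
    ∃ c ∈ C, c.2 = y := by
  obtain ⟨c, hc, h2⟩ := L.e0
  obtain ⟨d, hd, h3⟩ := L.e1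
  obtain ⟨e, he, h4, -⟩ := cross L.hK hc hd (y := y) (by linarith) (by linarith)
  exact ⟨e, he, h4⟩

theorem AB (L : Lev C y0 y1) {y : ℝ} (h0 : y0 ≤ y) (h1 : y ≤ y1) :
    Ext C ≤ Ext (lowP C y) + Ext (upP C y) := by
  obtain ⟨c, hc, h2⟩ := L.exists_level h0 h1
  have := L.strip_two (le_refl y) hc h2.ge h2.le hc h2.ge h2.le
  linarith

theorem strip (L : Lev C y0 y1) {y h : ℝ} (h0 : y0 ≤ y) (hh : 0 ≤ h) (h1 : y + h ≤ y1) :
    ∃ l, ∀ c ∈ C, y ≤ c.2 → c.2 ≤ y + h →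
      l ≤ c.1 ∧ c.1 ≤ l + (Ext (lowP C (y + h)) + Ext (upP C y) - Ext C) := by
  have hcomp : IsCompact (lowP (upP C y) (y + h)) :=
    (L.up_compact y).inter_right (isClosed_le continuous_snd continuous_const)
  obtain ⟨e, he, h2⟩ := L.exists_level h0 (by linarith)
  obtain ⟨c, hc, d, hd, -, h3⟩ := ext_spec hcomp ⟨e, ⟨he, h2.ge⟩, by linarith⟩
  refine ⟨c.1, fun f hf h4 h5 => ⟨(h3 f ⟨⟨hf, h4⟩, h5⟩).1, ?_⟩⟩
  have := L.strip_two (by linarith : y ≤ y + h) hc.1.1 hc.1.2 hc.2 hf h4 h5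
  linarith

/-- the chord of the level `y` -/
theorem chord (L : Lev C y0 y1) {y : ℝ} (h0 : y0 ≤ y) (h1 : y ≤ y1) :
    ∃ x, ∀ s, 0 ≤ s → s ≤ Ext (lowP C y) + Ext (upP C y) - Ext C → (x + s, y) ∈ C := by
  obtain ⟨c, hc, c', hc', h2, h3⟩ := ext_spec (L.low_compact y) (L.low_ne h0)
  obtain ⟨d, hd, d', hd', h4, h5⟩ := ext_spec (L.up_compact y) (L.up_ne h1)
  obtain ⟨e, he, h6, h7, -⟩ := cross L.hK hc.1 hd.1 hc.2 hd.2
  obtain ⟨e', he', h8, -, h9⟩ := cross L.hK hc'.1 hd'.1 hc'.2 hd'.2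
  have key : Ext (lowP C y) + Ext (upP C y) - Ext C ≤ e'.1 - e.1 := by
    rw [← h2, ← h4]
    have k1 := le_ext L.hc hc.1 hc'.1
    have k2 := le_ext L.hc hc.1 hd'.1
    have k3 := le_ext L.hc hd.1 hc'.1
    have k4 := le_ext L.hc hd.1 hd'.1
    rcases le_total c.1 d.1 with m1 | m1
    · rw [max_eq_right m1] at h7
      rcases le_total c'.1 d'.1 with m2 | m2
      · rw [min_eq_left m2] at h9
        linarith
      · rw [min_eq_right m2] at h9
        linarith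
    · rw [max_eq_left m1] at h7
      rcases le_total c'.1 d'.1 with m2 | m2
      · rw [min_eq_left m2] at h9
        linarith
      · rw [min_eq_right m2] at h9
        linarith
  refine ⟨e.1, fun s hs0 hs => ?_⟩
  rcases hs0.eq_or_lt with hs' | hs'
  · rw [← hs', add_zero, ← h6]
    exact he
  · have hpos : 0 < e'.1 - e.1 := by linarith
    have := comb L.hK he he' (θ := s / (e'.1 - e.1)) (div_nonneg hs0 hpos.le)
      ((div_le_one hpos).2 (hs.trans key))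
    rw [h6, h8] at this
    convert this using 2
    · field_simp
      ring
    · ring

/-- the widest level -/
theorem exists_max (L : Lev C y0 y1) : ∃ ym, y0 ≤ ym ∧ ym ≤ y1 ∧ ∀ y, y0 ≤ y → y ≤ y1 →
    Ext (lowP C y) + Ext (upP C y) - Ext C ≤ Ext (lowP C ym) + Ext (upP C ym) - Ext C := by
  have hcomp : IsCompact {p : (ℝ × ℝ) × (ℝ × ℝ) | p ∈ C ×ˢ C ∧ p.1.2 = p.2.2} :=
    (L.hc.prod L.hc).inter_right (isClosed_eq (by fun_prop) (by fun_prop))
  obtain ⟨c, hc⟩ := L.ne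
  obtain ⟨⟨d, e⟩, ⟨⟨hd, he⟩, hde⟩, hmax⟩ := hcomp.exists_isMaxOn ⟨(c, c), ⟨hc, hc⟩, rfl⟩
    (f := fun p : (ℝ × ℝ) × (ℝ × ℝ) => p.2.1 - p.1.1) (by fun_prop)
  simp only at hd he hde
  refine ⟨d.2, L.h0 d hd, L.h1 d hd, fun y h0 h1 => ?_⟩
  obtain ⟨x, hx⟩ := L.chord h0 h1
  have hAB := L.AB h0 h1
  have m1 := hx 0 le_rfl (by linarith)
  have m2 := hx _ (by linarith) le_rfl
  rw [add_zero] at m1
  have h2 := hmax (show ((x, y), (x + (Ext (lowP C y) + Ext (upP C y) - Ext C), y)) ∈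
    {p : (ℝ × ℝ) × (ℝ × ℝ) | p ∈ C ×ˢ C ∧ p.1.2 = p.2.2} from ⟨⟨m1, m2⟩, rfl⟩)
  have h2' : x + (Ext (lowP C y) + Ext (upP C y) - Ext C) - x ≤ e.1 - d.1 := h2
  have h3 := L.strip_two (le_refl d.2) hd le_rfl le_rfl he hde.le hde.ge
  linarith

theorem A_cont (L : Lev C y0 y1) {t : ℝ} (ht : y0 < t) :
    ContinuousOn (fun y => Ext (lowP C y)) (Icc t y1) := by
  set k : ℝ := Ext C / (t - y0) with hk
  have ht0 : 0 < t - y0 := sub_pos.2 ht
  have hE : 0 ≤ Ext C := by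
    obtain ⟨c, hc⟩ := L.ne
    have := le_ext L.hc hc hc
    linarith
  have hk0 : 0 ≤ k := div_nonneg hE ht0.le
  have key : ∀ u v, t ≤ u → u ≤ v → v ≤ y1 →
      Ext (lowP C v) - Ext (lowP C u) ≤ k * (v - u) := by
    intro u v h1 h2 h3
    have hv0 : 0 < v - y0 := by linarith
    have hθ0 : 0 ≤ (u - y0) / (v - y0) := div_nonneg (by linarith) hv0.le
    have hθ1 : (u - y0) / (v - y0) ≤ 1 := (div_le_one hv0).2 (by linarith)
    have hy0 : y0 ∈ Icc y0 y1 := ⟨le_rfl, L.le01⟩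
    have hv : v ∈ Icc y0 y1 := ⟨by linarith, h3⟩
    have h4 := L.A_conc.2 hy0 hv (sub_nonneg.2 hθ1) hθ0 (by ring)
    simp only [smul_eq_mul] at h4
    have e1 : (1 - (u - y0) / (v - y0)) * y0 + (u - y0) / (v - y0) * v = u := by
      field_simp
      ring
    rw [e1] at h4
    have h5 := L.A_nonneg (le_refl y0)
    have h6 := L.A_le (y := v) (by linarith)
    have h7 : 0 ≤ (1 - (u - y0) / (v - y0)) * Ext (lowP C y0) :=
      mul_nonneg (by linarith) h5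
    have h8 : (1 - (u - y0) / (v - y0)) * Ext (lowP C v) ≤
        (1 - (u - y0) / (v - y0)) * Ext C := mul_le_mul_of_nonneg_left h6 (by linarith)
    have e2 : (1 - (u - y0) / (v - y0)) * Ext C = Ext C / (v - y0) * (v - u) := by
      field_simp
      ring
    have h9 : Ext C / (v - y0) ≤ k := by
      rw [hk]
      exact div_le_div_of_nonneg_left hE ht0 (by linarith)
    have h10 : Ext C / (v - y0) * (v - u) ≤ k * (v - u) :=
      mul_le_mul_of_nonneg_right h9 (by linarith)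
    linarith
  have hL : LipschitzOnWith ⟨k, hk0⟩ (fun y => Ext (lowP C y)) (Icc t y1) := by
    refine LipschitzOnWith.of_dist_le_mul fun u hu v hv => ?_
    rcases le_total u v with h | h
    · have h1 := key u v hu.1 h hv.2
      have h2 := L.A_mono (by linarith [hu.1] : y0 ≤ u) h
      rw [Real.dist_eq, Real.dist_eq, abs_of_nonpos (by linarith), abs_of_nonpos (by linarith)]
      show -(Ext (lowP C u) - Ext (lowP C v)) ≤ k * -(u - v)
      linarith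
    · have h1 := key v u hv.1 h hu.2
      have h2 := L.A_mono (by linarith [hv.1] : y0 ≤ v) h
      rw [Real.dist_eq, Real.dist_eq, abs_of_nonneg (by linarith), abs_of_nonneg (by linarith)]
      show Ext (lowP C u) - Ext (lowP C v) ≤ k * (u - v)
      linarith
  exact hL.continuousOn

end Lev

end Pool.Agent.H94C
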