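import Pool.Agent.H94C.Ext

/-!
# More on extents: empty parts, inner rectangles, continuity at the top
-/

set_option autoImplicit false

namespace Pool.Agent.H94C

open Set Filter Topology

variable {C : Set (ℝ × ℝ)} {y0 y1 : ℝ}

theorem ext_empty : Ext ∅ = 0 := by
  unfold Ext
  have : {t : ℝ | ∃ c ∈ (∅ : Set (ℝ × ℝ)), ∃ d ∈ (∅ : Set (ℝ × ℝ)), t = d.1 - c.1} = ∅ := by
    ext t
    simp
  rw [this, Real.sSup_empty]

theorem ext_nonneg {D : Set (ℝ × ℝ)} (hD : IsCompact D) : 0 ≤ Ext D := by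
  rcases D.eq_empty_or_nonempty with h | ⟨c, hc⟩
  · rw [h, ext_empty]
  · have := le_ext hD hc hc
    linarith

theorem ext_mono {D D' : Set (ℝ × ℝ)} (hD : IsCompact D) (hD' : IsCompact D') (h : D ⊆ D') :
    Ext D ≤ Ext D' := by
  rcases D.eq_empty_or_nonempty with h0 | h0
  · rw [h0, ext_empty]
    exact ext_nonneg hD'
  · obtain ⟨c, hc, d, hd, h1, -⟩ := ext_spec hD h0
    rw [← h1]
    exact le_ext hD' (h hc) (h hd)

theorem between (hK : Convex ℝ C) {e e' : ℝ × ℝ} (he : e ∈ C) (he' : e' ∈ C) (h : e'.2 = e.2)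
    {z : ℝ} (h1 : e.1 ≤ z) (h2 : z ≤ e'.1) : (z, e.2) ∈ C := by
  rcases h1.eq_or_lt with h3 | h3
  · rw [← h3]
    exact he
  · have hpos : 0 < e'.1 - e.1 := by linarith
    have := comb hK he he' (θ := (z - e.1) / (e'.1 - e.1)) (div_nonneg (by linarith) hpos.le)
      ((div_le_one hpos).2 (by linarith))
    rw [h] at this
    convert this using 2
    · field_simp
      ring
    · ring

namespace Lev

theorem lowA_mono (L : Lev C y0 y1) {y z : ℝ} (h : y ≤ z) :
    Ext (lowP C y) ≤ Ext (lowP C z) :=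
  ext_mono (L.low_compact y) (L.low_compact z) fun _ hc => ⟨hc.1, hc.2.trans h⟩

theorem upB_anti (L : Lev C y0 y1) {y z : ℝ} (h : y ≤ z) :
    Ext (upP C z) ≤ Ext (upP C y) :=
  ext_mono (L.up_compact z) (L.up_compact y) fun _ hc => ⟨hc.1, h.trans hc.2⟩

theorem lowA_le (L : Lev C y0 y1) (y : ℝ) : Ext (lowP C y) ≤ Ext C :=
  ext_mono (L.low_compact y) L.hc fun _ hc => hc.1

theorem upB_le (L : Lev C y0 y1) (y : ℝ) : Ext (upP C y) ≤ Ext C :=
  ext_mono (L.up_compact y) L.hc fun _ hc => hc.1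

theorem lowA_nonneg (L : Lev C y0 y1) (y : ℝ) : 0 ≤ Ext (lowP C y) := ext_nonneg (L.low_compact y)

theorem upB_nonneg (L : Lev C y0 y1) (y : ℝ) : 0 ≤ Ext (upP C y) := ext_nonneg (L.up_compact y)

theorem lowA_zero (L : Lev C y0 y1) {y : ℝ} (h : y < y0) : Ext (lowP C y) = 0 := by
  have : lowP C y = ∅ := by
    ext c
    simp only [lowP, mem_empty_iff_false, iff_false]
    rintro ⟨h1, h2⟩
    have := L.h0 c h1
    linarith
  rw [this, ext_empty]

theorem upB_full (L : Lev C y0 y1) {y : ℝ} (h : y ≤ y0) : Ext (upP C y) = Ext C := by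
  have : upP C y = C := by
    ext c
    constructor
    · exact fun hc => hc.1
    · exact fun hc => ⟨hc, h.trans (L.h0 c hc)⟩
  rw [this]

theorem inner_rect (L : Lev C y0 y1) {u v : ℝ} (_huv : u ≤ v)
    (hI : 0 < Ext (lowP C u) + Ext (upP C v) - Ext C) :
    ∃ m, ∀ s t, 0 ≤ s → s ≤ Ext (lowP C u) + Ext (upP C v) - Ext C → u ≤ t → t ≤ v →
      (m + s, t) ∈ C := by
  have hne1 : (lowP C u).Nonempty := by
    by_contra h
    rw [not_nonempty_iff_eq_empty] at h
    rw [h, ext_empty] at hI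
    have := L.upB_le v
    linarith
  have hne2 : (upP C v).Nonempty := by
    by_contra h
    rw [not_nonempty_iff_eq_empty] at h
    rw [h, ext_empty] at hI
    have := L.lowA_le u
    linarith
  obtain ⟨c, hc, c', hc', h2, -⟩ := ext_spec (L.low_compact u) hne1
  obtain ⟨d, hd, d', hd', h4, -⟩ := ext_spec (L.up_compact v) hne2
  refine ⟨max c.1 d.1, fun s t hs0 hs ht1 ht2 => ?_⟩
  obtain ⟨e, he, h6, h7, -⟩ := cross L.hK hc.1 hd.1 (hc.2.trans ht1) (ht2.trans hd.2)
  obtain ⟨e', he', h8, -, h9⟩ := cross L.hK hc'.1 hd'.1 (hc'.2.trans ht1) (ht2.trans hd'.2)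
  have key : max c.1 d.1 + (Ext (lowP C u) + Ext (upP C v) - Ext C) ≤ min c'.1 d'.1 := by
    rw [← h2, ← h4]
    have k1 := le_ext L.hc hc.1 hc'.1
    have k2 := le_ext L.hc hc.1 hd'.1
    have k3 := le_ext L.hc hd.1 hc'.1
    have k4 := le_ext L.hc hd.1 hd'.1
    rcases le_total c.1 d.1 with m1 | m1
    · rw [max_eq_right m1]
      rcases le_total c'.1 d'.1 with m2 | m2
      · rw [min_eq_left m2]
        linarith
      · rw [min_eq_right m2]
        linarith
    · rw [max_eq_left m1]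
      rcases le_total c'.1 d'.1 with m2 | m2
      · rw [min_eq_left m2]
        linarith
      · rw [min_eq_right m2]
        linarith
  have := between L.hK he he' (by rw [h6, h8]) (z := max c.1 d.1 + s) (by linarith) (by linarith)
  rw [h6] at this
  exact this

theorem top_limit (L : Lev C y0 y1) {ε : ℝ} (hε : 0 < ε) : ∃ δ, 0 < δ ∧ ∀ y, y1 - δ < y →
    y ≤ y1 → Ext (upP C y) < Ext (upP C y1) + ε := by
  by_contra hcon
  push Not at hcon
  have hpair : ∀ n : ℕ, ∃ p : (ℝ × ℝ) × (ℝ × ℝ), p ∈ C ×ˢ C ∧ y1 - 1 / ((n : ℝ) + 1) ≤ p.1.2 ∧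
      y1 - 1 / ((n : ℝ) + 1) ≤ p.2.2 ∧ Ext (upP C y1) + ε ≤ p.2.1 - p.1.1 := by
    intro n
    obtain ⟨y, h1, h2, h3⟩ := hcon (1 / ((n : ℝ) + 1)) (by positivity)
    obtain ⟨c, hc, d, hd, h4, -⟩ := ext_spec (L.up_compact y) (L.up_ne h2)
    refine ⟨(c, d), ⟨hc.1, hd.1⟩, h1.le.trans hc.2, h1.le.trans hd.2, ?_⟩
    show Ext (upP C y1) + ε ≤ d.1 - c.1
    rw [h4]
    exact h3
  choose p hp h1 h2 h3 using hpair
  obtain ⟨q, hq, φ, hφ, hlim⟩ := (L.hc.prod L.hc).tendsto_subseq hp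
  have hz : Tendsto (fun n : ℕ => y1 - 1 / ((φ n : ℝ) + 1)) atTop (𝓝 (y1 - 0)) :=
    tendsto_const_nhds.sub (tendsto_one_div_add_atTop_nhds_zero_nat.comp hφ.tendsto_atTop)
  have e1 : Tendsto (fun n => (p (φ n)).1.2) atTop (𝓝 q.1.2) :=
    ((continuous_snd.comp continuous_fst).tendsto q).comp hlim
  have e2 : Tendsto (fun n => (p (φ n)).2.2) atTop (𝓝 q.2.2) :=
    ((continuous_snd.comp continuous_snd).tendsto q).comp hlim
  have e3 : Tendsto (fun n => (p (φ n)).2.1 - (p (φ n)).1.1) atTop (𝓝 (q.2.1 - q.1.1)) :=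
    (((continuous_fst.comp continuous_snd).sub (continuous_fst.comp continuous_fst)).tendsto q).comp
      hlim
  have g1 : y1 - 0 ≤ q.1.2 := le_of_tendsto_of_tendsto' hz e1 fun n => h1 (φ n)
  have g2 : y1 - 0 ≤ q.2.2 := le_of_tendsto_of_tendsto' hz e2 fun n => h2 (φ n)
  have g3 : Ext (upP C y1) + ε ≤ q.2.1 - q.1.1 := ge_of_tendsto' e3 fun n => h3 (φ n)
  rw [sub_zero] at g1 g2
  have g4 := le_ext (L.up_compact y1) (c := q.1) (d := q.2) ⟨hq.1, g1⟩ ⟨hq.2, g2⟩
  linarith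

theorem B_lip (L : Lev C y0 y1) {t : ℝ} (ht : t < y1) {u v : ℝ} (h1 : u ≤ v) (h2 : v ≤ t) :
    Ext (upP C u) - Ext (upP C v) ≤ Ext C / (y1 - t) * (v - u) := by
  have hE : 0 ≤ Ext C := ext_nonneg L.hc
  have ht0 : 0 < y1 - t := sub_pos.2 ht
  have key : ∀ u, y0 ≤ u → u ≤ v →
      Ext (upP C u) - Ext (upP C v) ≤ Ext C / (y1 - t) * (v - u) := by
    intro u hu0 h1
    have hv0 : 0 < y1 - u := by linarith
    have hθ0 : 0 ≤ (y1 - v) / (y1 - u) := div_nonneg (by linarith) hv0.le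
    have hθ1 : (y1 - v) / (y1 - u) ≤ 1 := (div_le_one hv0).2 (by linarith)
    have hu : u ∈ Icc y0 y1 := ⟨hu0, by linarith⟩
    have hy1 : y1 ∈ Icc y0 y1 := ⟨L.le01, le_rfl⟩
    have h4 := L.B_conc.2 hu hy1 hθ0 (sub_nonneg.2 hθ1) (by ring)
    simp only [smul_eq_mul] at h4
    have e1 : (y1 - v) / (y1 - u) * u + (1 - (y1 - v) / (y1 - u)) * y1 = v := by
      field_simp
      ring
    rw [e1] at h4
    have h5 := L.upB_nonneg y1
    have h6 := L.upB_le u
    have h7 : 0 ≤ (1 - (y1 - v) / (y1 - u)) * Ext (upP C y1) := mul_nonneg (by linarith) h5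
    have h8 : (1 - (y1 - v) / (y1 - u)) * Ext (upP C u) ≤
        (1 - (y1 - v) / (y1 - u)) * Ext C := mul_le_mul_of_nonneg_left h6 (by linarith)
    have e2 : (1 - (y1 - v) / (y1 - u)) * Ext C = Ext C / (y1 - u) * (v - u) := by
      field_simp
      ring
    have h9 : Ext C / (y1 - u) ≤ Ext C / (y1 - t) :=
      div_le_div_of_nonneg_left hE ht0 (by linarith)
    have h10 : Ext C / (y1 - u) * (v - u) ≤ Ext C / (y1 - t) * (v - u) :=
      mul_le_mul_of_nonneg_right h9 (by linarith)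
    linarith
  have hk : 0 ≤ Ext C / (y1 - t) := div_nonneg hE ht0.le
  rcases le_total y0 u with hu | hu
  · exact key u hu h1
  · rcases le_total y0 v with hv | hv
    · have h3 := key y0 le_rfl hv
      have h4 := L.upB_full hu
      have h5 := L.upB_full (le_refl y0)
      have h6 : Ext C / (y1 - t) * (v - y0) ≤ Ext C / (y1 - t) * (v - u) :=
        mul_le_mul_of_nonneg_left (by linarith) hk
      linarith
    · rw [L.upB_full hu, L.upB_full hv, sub_self]
      exact mul_nonneg hk (by linarith)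

theorem B_cont (L : Lev C y0 y1) : ContinuousOn (fun y => Ext (upP C y)) (Iic y1) := by
  intro y hy
  rcases (show y ≤ y1 from hy).eq_or_lt with h | h
  · subst h
    rw [Metric.continuousWithinAt_iff]
    intro ε hε
    obtain ⟨δ, hδ, hδ'⟩ := L.top_limit hε
    refine ⟨δ, hδ, fun {z} hz hzd => ?_⟩
    rw [Real.dist_eq, abs_lt] at hzd
    have h1 := hδ' z (by linarith) hz
    have h2 := L.upB_anti (show z ≤ y from hz)
    rw [Real.dist_eq, abs_lt]
    constructor <;> linarith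
  · obtain ⟨t, ht1, ht2⟩ := exists_between h
    have hk0 : 0 ≤ Ext C / (y1 - t) := div_nonneg (ext_nonneg L.hc) (by linarith)
    have hL : LipschitzOnWith ⟨Ext C / (y1 - t), hk0⟩ (fun y => Ext (upP C y)) (Iic t) := by
      refine LipschitzOnWith.of_dist_le_mul fun u hu v hv => ?_
      rcases le_total u v with h | h
      · have h1 := L.B_lip ht2 h hv
        have h2 := L.upB_anti h
        rw [Real.dist_eq, Real.dist_eq, abs_of_nonneg (by linarith), abs_of_nonpos (by linarith)]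
        show Ext (upP C u) - Ext (upP C v) ≤ Ext C / (y1 - t) * -(u - v)
        linarith
      · have h1 := L.B_lip ht2 h hu
        have h2 := L.upB_anti h
        rw [Real.dist_eq, Real.dist_eq, abs_of_nonpos (by linarith), abs_of_nonneg (by linarith)]
        show -(Ext (upP C u) - Ext (upP C v)) ≤ Ext C / (y1 - t) * (u - v)
        linarith
    exact (hL.continuousOn.continuousAt (Iic_mem_nhds ht1)).continuousWithinAt

end Lev

end Pool.Agent.H94C
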