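import Mathlib

/-!
# Integrals of concave functions on an interval
-/

set_option autoImplicit false

namespace Pool.Agent.H94C

open MeasureTheory Set

/-- concavity in coordinates -/
theorem conc {f : ℝ → ℝ} {u v : ℝ} {S : Set ℝ} (hf : ConcaveOn ℝ S f) (hu : u ∈ S) (hv : v ∈ S)
    {θ : ℝ} (h0 : 0 ≤ θ) (h1 : θ ≤ 1) :
    (1 - θ) * f u + θ * f v ≤ f ((1 - θ) * u + θ * v) := by
  have := hf.2 hu hv (sub_nonneg.2 h1) h0 (by ring)
  simpa only [smul_eq_mul] using this

theorem trapezoid {f : ℝ → ℝ} {u v : ℝ} (huv : u ≤ v) (hf : ConcaveOn ℝ (Icc u v) f)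
    (hint : IntervalIntegrable f volume u v) :
    (v - u) * ((f u + f v) / 2) ≤ ∫ t in u..v, f t := by
  rcases huv.eq_or_lt with h | h
  · subst h
    simp
  set k := (f v - f u) / (v - u) with hk
  have hvu : 0 < v - u := sub_pos.2 h
  have hk' : k * (v - u) = f v - f u := by rw [hk]; field_simp
  have hc : Continuous fun t : ℝ => f u + (t - u) * k := by fun_prop
  have h1 : ∫ t in u..v, (f u + (t - u) * k) = (v - u) * ((f u + f v) / 2) := by
    have e1 : (fun t : ℝ => f u + (t - u) * k) = fun t => (f u - u * k) + t * k := by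
      funext t; ring
    rw [e1, intervalIntegral.integral_add (by simp) (Continuous.intervalIntegrable (by fun_prop) _ _),
      intervalIntegral.integral_const, intervalIntegral.integral_mul_const, integral_id,
      smul_eq_mul]
    have e2 : f v = f u + k * (v - u) := by linarith
    rw [e2]
    ring
  rw [← h1]
  refine intervalIntegral.integral_mono_on huv (hc.intervalIntegrable _ _) hint fun t ht => ?_
  have h2 := conc hf (left_mem_Icc.2 huv) (right_mem_Icc.2 huv) (θ := (t - u) / (v - u))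
    (div_nonneg (by linarith [ht.1]) hvu.le) ((div_le_one hvu).2 (by linarith [ht.2]))
  have e3 : (1 - (t - u) / (v - u)) * u + (t - u) / (v - u) * v = t := by
    field_simp; ring
  rw [e3] at h2
  have e4 : (1 - (t - u) / (v - u)) * f u + (t - u) / (v - u) * f v = f u + (t - u) * k := by
    rw [hk]; field_simp; ring
  linarith

theorem half_right {f : ℝ → ℝ} {T : ℝ} (hT : 0 ≤ T) (hf : ConcaveOn ℝ (Icc 0 T) f)
    (h0 : ∀ t ∈ Icc 0 T, 0 ≤ f t) (hm : ∀ t ∈ Icc 0 T, f t ≤ f 0)
    (hint : IntervalIntegrable f volume 0 T) :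
    ∃ β, 0 ≤ β ∧ β ≤ T ∧ (∀ t, 0 ≤ t → t < β → f 0 / 2 ≤ f t) ∧ ∫ t in 0..T, f t ≤ f 0 * β := by
  have h00 : (0 : ℝ) ∈ Icc 0 T := left_mem_Icc.2 hT
  have hTT : T ∈ Icc 0 T := right_mem_Icc.2 hT
  have hm0 : 0 ≤ f 0 := h0 0 h00
  have hsub : ∀ u v, 0 ≤ u → u ≤ v → v ≤ T → IntervalIntegrable f volume u v := by
    intro u v h1 h2 h3
    refine hint.mono_set ?_
    rw [uIcc_of_le h2, uIcc_of_le hT]
    exact Icc_subset_Icc h1 h3
  have hconst : ∀ u v, 0 ≤ u → u ≤ v → v ≤ T → ∫ t in u..v, f t ≤ f 0 * (v - u) := by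
    intro u v h1 h2 h3
    have h4 : ∫ t in u..v, f t ≤ ∫ _ in u..v, f 0 :=
      intervalIntegral.integral_mono_on h2 (hsub u v h1 h2 h3) (by simp)
        fun t ht => hm t ⟨h1.trans ht.1, ht.2.trans h3⟩
    rw [intervalIntegral.integral_const, smul_eq_mul] at h4
    linarith
  rcases hm0.eq_or_lt with hmz | hmp
  · refine ⟨0, le_rfl, hT, fun t h1 h2 => absurd h2 (not_lt.2 h1), ?_⟩
    have := hconst 0 T le_rfl hT le_rfl
    rw [← hmz] at this ⊢
    linarith
  set S : Set ℝ := {t | t ∈ Icc 0 T ∧ f 0 / 2 ≤ f t} with hS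
  have hS0 : (0 : ℝ) ∈ S := ⟨h00, by linarith⟩
  have hSb : BddAbove S := ⟨T, fun t ht => ht.1.2⟩
  set β := sSup S with hβ
  have hβ0 : 0 ≤ β := le_csSup hSb hS0
  have hβT : β ≤ T := csSup_le ⟨0, hS0⟩ fun t ht => ht.1.2
  have hlow : ∀ t, 0 ≤ t → t < β → f 0 / 2 ≤ f t := by
    intro t h1 h2
    obtain ⟨t', ht', h3⟩ := exists_lt_of_lt_csSup ⟨0, hS0⟩ h2
    have h4 := hf.min_le_of_mem_Icc h00 ht'.1 ⟨h1, h3.le⟩
    exact (le_min (by linarith) ht'.2).trans h4
  refine ⟨β, hβ0, hβT, hlow, ?_⟩
  rcases hβT.eq_or_lt with h | hβT'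
  · have := hconst 0 T le_rfl hT le_rfl
    rw [h]
    linarith
  have hhigh : ∀ t, β < t → t ≤ T → f t < f 0 / 2 := by
    intro t h1 h2
    by_contra h3
    push Not at h3
    have : t ≤ β := le_csSup hSb ⟨⟨by linarith, h2⟩, h3⟩
    linarith
  -- symmetric points around β
  have hsym : ∀ s, 0 < s → s ≤ β → β + s ≤ T → f (β - s) + f (β + s) ≤ f 0 := by
    intro s hs1 hs2 hs3
    by_contra hcon
    push Not at hcon
    have hA : f (β - s) ≤ f 0 := hm _ ⟨by linarith, by linarith⟩
    have hB : 0 ≤ f (β + s) := h0 _ ⟨by linarith, hs3⟩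
    set D := f (β - s) + f (β + s) - f 0 with hD
    have hD0 : 0 < D := by linarith
    -- choose η in (0,1)
    obtain ⟨η, h1, h2, h3⟩ : ∃ η, 0 < η ∧ η < 1 ∧ η * f 0 ≤ D / 2 := by
      refine ⟨min (1 / 2) (D / (2 * f 0)), ?_, ?_, ?_⟩
      · exact lt_min (by norm_num) (by positivity)
      · exact lt_of_le_of_lt (min_le_left _ _) (by norm_num)
      · calc min (1 / 2) (D / (2 * f 0)) * f 0 ≤ D / (2 * f 0) * f 0 :=
              mul_le_mul_of_nonneg_right (min_le_right _ _) hm0
          _ = D / 2 := by field_simp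
    have h4 := hhigh (β + η * s) (by nlinarith) (by nlinarith)
    have h5 := conc hf (u := β - s) (v := β + s) ⟨by linarith, by linarith⟩ ⟨by linarith, hs3⟩
      (θ := (1 + η) / 2) (by linarith) (by linarith)
    have e1 : (1 - (1 + η) / 2) * (β - s) + (1 + η) / 2 * (β + s) = β + η * s := by ring
    rw [e1] at h5
    have h6 : (1 - (1 + η) / 2) * f (β - s) + (1 + η) / 2 * f (β + s) =
        (f (β - s) + f (β + s)) / 2 + η / 2 * (f (β + s) - f (β - s)) := by ring
    have h7 : η / 2 * (f (β + s) - f (β - s)) ≥ - (η * f 0) / 2 := by nlinarith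
    linarith
  -- β is beyond the middle
  have hmid : T - β ≤ β := by
    by_contra hcon
    push Not at hcon
    have hT0 : 0 < T := by linarith
    rcases hβ0.eq_or_lt with hb | hb
    · have h1 := hhigh (T / 4) (by linarith) (by linarith)
      have h2 := conc hf h00 hTT (θ := 1 / 4) (by norm_num) (by norm_num)
      have e1 : (1 - 1 / 4) * 0 + 1 / 4 * T = T / 4 := by ring
      rw [e1] at h2
      have := h0 T hTT
      linarith
    · have h1 := hsym β hb le_rfl (by linarith)
      rw [sub_self] at h1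
      have h2 := conc hf h00 hTT (θ := (β + β) / T) (by positivity)
        ((div_le_one hT0).2 (by linarith))
      have e1 : (1 - (β + β) / T) * 0 + (β + β) / T * T = β + β := by field_simp; ring
      rw [e1] at h2
      have h3 : 0 < 1 - (β + β) / T := by
        rw [sub_pos, div_lt_one hT0]; linarith
      have h4 : 0 ≤ (β + β) / T * f T := mul_nonneg (by positivity) (h0 T hTT)
      have h5 := mul_pos h3 hmp
      linarith
  set δ := T - β with hδ
  have hδ0 : 0 < δ := by linarith
  have i1 : ∫ t in β..T, f t = ∫ s in 0..δ, f (β + s) := by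
    rw [intervalIntegral.integral_comp_add_left (fun t => f t) β]
    rw [add_zero, hδ]
    congr 1
    ring
  have i2 : ∫ t in (β - δ)..β, f t = ∫ s in 0..δ, f (β - s) := by
    rw [intervalIntegral.integral_comp_sub_left (fun t => f t) β, sub_zero]
  have ii1 : IntervalIntegrable (fun s => f (β + s)) volume 0 δ := by
    have := (hsub β T hβ0 hβT le_rfl).comp_add_left β
    rw [sub_self] at this
    rwa [hδ]
  have ii2 : IntervalIntegrable (fun s => f (β - s)) volume 0 δ := by
    have := ((hsub (β - δ) β (by linarith) (by linarith) hβT).comp_sub_left β)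
    rw [sub_self, sub_sub_cancel] at this
    exact this.symm
  have i3 : ∫ s in 0..δ, (f (β - s) + f (β + s)) ≤ f 0 * δ := by
    have h1 : ∫ s in 0..δ, (f (β - s) + f (β + s)) ≤ ∫ _ in 0..δ, f 0 := by
      refine intervalIntegral.integral_mono_on_of_le_Ioo hδ0.le (ii2.add ii1) (by simp)
        fun s hs => hsym s hs.1 (by linarith [hs.2]) (by linarith [hs.2])
    rw [intervalIntegral.integral_const, smul_eq_mul] at h1
    linarith
  rw [intervalIntegral.integral_add ii2 ii1, ← i1, ← i2] at i3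
  have i4 : ∫ t in 0..T, f t = (∫ t in 0..(β - δ), f t) + ((∫ t in (β - δ)..β, f t) +
      ∫ t in β..T, f t) := by
    rw [intervalIntegral.integral_add_adjacent_intervals
      (hsub (β - δ) β (by linarith) (by linarith) hβT) (hsub β T hβ0 hβT le_rfl),
      intervalIntegral.integral_add_adjacent_intervals
      (hsub 0 (β - δ) le_rfl (by linarith) (by linarith))
      (hsub (β - δ) T (by linarith) (by linarith) le_rfl)]
  have i5 := hconst 0 (β - δ) le_rfl (by linarith) (by linarith)
  rw [i4]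
  nlinarith

theorem area_le_two {w : ℝ → ℝ} {y0 y1 ym : ℝ} (h01 : y0 ≤ ym) (h12 : ym ≤ y1)
    (hw : ConcaveOn ℝ (Icc y0 y1) w) (h0 : ∀ t ∈ Icc y0 y1, 0 ≤ w t)
    (hm : ∀ t ∈ Icc y0 y1, w t ≤ w ym) (hint : IntervalIntegrable w volume y0 y1)
    (hM : ∀ y z lam, y0 ≤ y → y ≤ z → z ≤ y1 → lam ≤ w y → lam ≤ w z → lam * (z - y) ≤ 1) :
    ∫ t in y0..y1, w t ≤ 2 := by
  have hsub : ∀ u v, y0 ≤ u → u ≤ v → v ≤ y1 → IntervalIntegrable w volume u v := by
    intro u v h1 h2 h3
    refine hint.mono_set ?_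
    rw [uIcc_of_le h2, uIcc_of_le (h01.trans h12)]
    exact Icc_subset_Icc h1 h3
  -- right part
  obtain ⟨β, hβ0, hβT, hβl, hβi⟩ := half_right (f := fun t => w (ym + t)) (T := y1 - ym)
    (by linarith)
    (by
      refine ⟨convex_Icc _ _, fun u hu v hv a b ha hb hab => ?_⟩
      have h1 := hw.2 (x := ym + u) (y := ym + v) ⟨by linarith [hu.1], by linarith [hu.2]⟩
        ⟨by linarith [hv.1], by linarith [hv.2]⟩ ha hb hab
      have e1 : a • (ym + u) + b • (ym + v) = ym + (a • u + b • v) := by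
        simp only [smul_eq_mul]
        have : a * ym + b * ym = ym := by rw [← add_mul, hab, one_mul]
        linarith
      rw [e1] at h1
      exact h1)
    (fun t ht => h0 _ ⟨by linarith [ht.1], by linarith [ht.2]⟩)
    (fun t ht => by
      have := hm (ym + t) ⟨by linarith [ht.1], by linarith [ht.2]⟩
      simpa using this)
    (by
      have := (hsub ym y1 h01 h12 le_rfl).comp_add_left ym
      rwa [sub_self] at this)
  -- left part
  obtain ⟨γ, hγ0, hγT, hγl, hγi⟩ := half_right (f := fun t => w (ym - t)) (T := ym - y0)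
    (by linarith)
    (by
      refine ⟨convex_Icc _ _, fun u hu v hv a b ha hb hab => ?_⟩
      have h1 := hw.2 (x := ym - u) (y := ym - v) ⟨by linarith [hu.2], by linarith [hu.1]⟩
        ⟨by linarith [hv.2], by linarith [hv.1]⟩ ha hb hab
      have e1 : a • (ym - u) + b • (ym - v) = ym - (a • u + b • v) := by
        simp only [smul_eq_mul]
        have : a * ym + b * ym = ym := by rw [← add_mul, hab, one_mul]
        linarith
      rw [e1] at h1
      exact h1)
    (fun t ht => h0 _ ⟨by linarith [ht.2], by linarith [ht.1]⟩)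
    (fun t ht => by
      have := hm (ym - t) ⟨by linarith [ht.2], by linarith [ht.1]⟩
      simpa using this)
    (by
      have := ((hsub y0 ym le_rfl h01 h12).comp_sub_left ym).symm
      rwa [sub_self] at this)
  simp only [add_zero, sub_zero] at hβl hβi hγl hγi
  have j1 : ∫ t in ym..y1, w t = ∫ t in 0..(y1 - ym), w (ym + t) := by
    rw [intervalIntegral.integral_comp_add_left (fun t => w t) ym, add_zero]
    congr 1
    ring
  have j2 : ∫ t in y0..ym, w t = ∫ t in 0..(ym - y0), w (ym - t) := by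
    rw [intervalIntegral.integral_comp_sub_left (fun t => w t) ym, sub_zero, sub_sub_cancel]
  have hmm : 0 ≤ w ym := h0 ym ⟨h01, h12⟩
  have key : w ym / 2 * (β + γ) ≤ 1 := by
    refine le_of_forall_pos_le_add fun ε hε => ?_
    -- points close to β and γ
    obtain ⟨η, h1, h2⟩ : ∃ η, 0 < η ∧ w ym * η ≤ ε := by
      refine ⟨ε / (w ym + 1), by positivity, ?_⟩
      rw [mul_div_assoc', div_le_iff₀ (by linarith)]
      nlinarith
    have hpt : ∀ b, 0 ≤ b → (∀ t, 0 ≤ t → t < b → w ym / 2 ≤ w (ym + t)) →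
        w ym / 2 ≤ w (ym + max (b - η) 0) := by
      intro b hb hb'
      rcases le_total (b - η) 0 with h | h
      · rw [max_eq_right h, add_zero]
        linarith
      · rw [max_eq_left h]
        exact hb' _ h (by linarith)
    have hpt' : ∀ b, 0 ≤ b → (∀ t, 0 ≤ t → t < b → w ym / 2 ≤ w (ym - t)) →
        w ym / 2 ≤ w (ym - max (b - η) 0) := by
      intro b hb hb'
      rcases le_total (b - η) 0 with h | h
      · rw [max_eq_right h, sub_zero]
        linarith
      · rw [max_eq_left h]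
        exact hb' _ h (by linarith)
    have h3 := hpt β hβ0 hβl
    have h4 := hpt' γ hγ0 hγl
    have m1 : 0 ≤ max (β - η) 0 := le_max_right _ _
    have m2 : 0 ≤ max (γ - η) 0 := le_max_right _ _
    have m3 : max (β - η) 0 ≤ β := max_le (by linarith) hβ0
    have m4 : max (γ - η) 0 ≤ γ := max_le (by linarith) hγ0
    have m5 : β - η ≤ max (β - η) 0 := le_max_left _ _
    have m6 : γ - η ≤ max (γ - η) 0 := le_max_left _ _
    have h5 := hM (ym - max (γ - η) 0) (ym + max (β - η) 0) (w ym / 2) (by linarith)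
      (by linarith) (by linarith) h4 h3
    nlinarith
  have h3 : ∫ t in y0..y1, w t = (∫ t in y0..ym, w t) + ∫ t in ym..y1, w t :=
    (intervalIntegral.integral_add_adjacent_intervals (hsub y0 ym le_rfl h01 h12)
      (hsub ym y1 h01 h12 le_rfl)).symm
  rw [h3, j1, j2]
  linarith

end Pool.Agent.H94C
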