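import Pool.Agent.H94C.Rows
import Pool.Agent.H94C.Half
import Pool.Agent.H94C.Ext

/-!
# Covering a planar convex set by small squares
-/

set_option autoImplicit false

namespace Pool.Agent.H94C

open Set MeasureTheory

variable {C : Set (ℝ × ℝ)} {y0 y1 : ℝ}

/-- the height of a set in which the unit square is a largest parallelogram is at most two -/
theorem height_le_two (hK : Convex ℝ C) (h00 : ((0 : ℝ), (0 : ℝ)) ∈ C)
    (h10 : ((1 : ℝ), (0 : ℝ)) ∈ C) (h01 : ((0 : ℝ), (1 : ℝ)) ∈ C) (h11 : ((1 : ℝ), (1 : ℝ)) ∈ C)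
    (H : ∀ x y x' y' lam : ℝ, (x, y) ∈ C → (x + lam, y) ∈ C → (x', y') ∈ C →
      (x' + lam, y') ∈ C → lam * (y' - y) ≤ 1) {c d : ℝ × ℝ} (hc : c ∈ C) (hd : d ∈ C) :
    d.2 - c.2 ≤ 2 := by
  by_contra hT
  push Not at hT
  set T := d.2 - c.2 with hTd
  have hT1 : 0 < T - 1 := by linarith
  set lam := (T - 2) / (2 * (T - 1)) with hlam
  have hl : lam * (T - 1) = (T - 2) / 2 := by rw [hlam]; field_simp
  have hl0 : 0 < lam := div_pos (by linarith) (by linarith)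
  have hl1 : lam ≤ 1 := by rw [hlam, div_le_one (by linarith)]; linarith
  have m1 := comb hK h00 hc hl0.le hl1
  have m2 := comb hK h10 hc hl0.le hl1
  have m3 := comb hK h01 hd hl0.le hl1
  have m4 := comb hK h11 hd hl0.le hl1
  have h := H ((1 - lam) * 0 + lam * c.1) ((1 - lam) * 0 + lam * c.2)
    ((1 - lam) * 0 + lam * d.1) ((1 - lam) * 1 + lam * d.2) (1 - lam) m1
    (by convert m2 using 2; ring) m3 (by convert m4 using 2; ring)
  have e : (1 - lam) * ((1 - lam) * 1 + lam * d.2 - ((1 - lam) * 0 + lam * c.2)) =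
      1 + lam * (T - 2) - lam * (lam * (T - 1)) := by
    rw [hTd]; ring
  rw [e, hl] at h
  have : 0 < lam * (T - 2) := mul_pos hl0 (by linarith)
  linarith

/-- the potential -/
theorem planar (L : Lev C y0 y1) (h01 : y0 < y1)
    (H : ∀ x y x' y' lam : ℝ, (x, y) ∈ C → (x + lam, y) ∈ C → (x', y') ∈ C →
      (x' + lam, y') ∈ C → lam * (y' - y) ≤ 1) (hv : y1 - y0 ≤ 2) (ha : Ext C ≤ 2)
    {x : ℕ → ℝ} {N : ℕ} (hx : ∀ i, 0 ≤ x i) (hanti : Antitone x) (hpos : ∀ i, i < N → 0 < x i)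
    {ρ : ℝ} (hρ : 0 < ρ) (hx0 : x 0 ≤ ρ) (hsum : 2 + 5 * ρ ≤ ∑ i ∈ Finset.range N, x i ^ 2) :
    ∃ p q : ℕ → ℝ, ∀ c ∈ C, ∃ i, i < N ∧
      p i ≤ c.1 ∧ c.1 ≤ p i + x i ∧ q i ≤ c.2 ∧ c.2 ≤ q i + x i := by
  set A : ℝ → ℝ := fun y => Ext (lowP C y) with hA
  set B : ℝ → ℝ := fun y => Ext (upP C y) with hB
  set a : ℝ := Ext C with haa
  set w : ℝ → ℝ := fun y => A y + B y - a with hw
  have hAi : ∀ u v, y0 ≤ u → u ≤ v → v ≤ y1 → IntervalIntegrable A volume u v := by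
    intro u v h1 h2 h3
    refine MonotoneOn.intervalIntegrable ?_
    intro s hs t ht hst
    rw [uIcc_of_le h2] at hs
    exact L.A_mono (by linarith [hs.1]) hst
  have hBi : ∀ u v, y0 ≤ u → u ≤ v → v ≤ y1 → IntervalIntegrable B volume u v := by
    intro u v h1 h2 h3
    refine AntitoneOn.intervalIntegrable ?_
    intro s hs t ht hst
    rw [uIcc_of_le h2] at ht
    exact L.B_anti (by linarith [ht.2]) hst
  have hwi : ∀ u v, y0 ≤ u → u ≤ v → v ≤ y1 → IntervalIntegrable w volume u v := by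
    intro u v h1 h2 h3
    exact ((hAi u v h1 h2 h3).add (hBi u v h1 h2 h3)).sub (by simp)
  have hwc : ConcaveOn ℝ (Icc y0 y1) w := by
    have h1 : ConcaveOn ℝ (Icc y0 y1) fun y => A y + B y := L.A_conc.add L.B_conc
    have h2 := h1.sub (convexOn_const a (convex_Icc y0 y1))
    exact h2
  have hw0 : ∀ t ∈ Icc y0 y1, 0 ≤ w t := by
    intro t ht
    have := L.AB ht.1 ht.2
    simp only [hw, hA, hB]
    linarith
  obtain ⟨ym, hm0, hm1, hmax⟩ := L.exists_max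
  have hM : ∀ y z lam, y0 ≤ y → y ≤ z → z ≤ y1 → lam ≤ w y → lam ≤ w z → lam * (z - y) ≤ 1 := by
    intro y z lam h1 h2 h3 h4 h5
    rcases le_total lam 0 with hl | hl
    · have := mul_nonneg_of_nonpos_of_nonpos hl (sub_nonpos.2 h2)
      have h6 : lam * (z - y) = -(lam * (y - z)) := by ring
      linarith
    · obtain ⟨u, hu⟩ := L.chord h1 (h2.trans h3)
      obtain ⟨v, hv'⟩ := L.chord (h1.trans h2) h3
      have m1 := hu 0 le_rfl (hl.trans h4)
      have m2 := hu lam hl h4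
      have m3 := hv' 0 le_rfl (hl.trans h5)
      have m4 := hv' lam hl h5
      rw [add_zero] at m1 m3
      exact H u y v z lam m1 m2 m3 m4
  have harea : ∫ t in y0..y1, w t ≤ 2 :=
    area_le_two hm0 hm1 hwc hw0 (fun t ht => hmax t ht.1 ht.2) (hwi y0 y1 le_rfl h01.le le_rfl) hM
  have hFsub : ∀ u v, y0 ≤ u → u ≤ v → v ≤ y1 →
      (∫ t in u..y1, w t) - (∫ t in v..y1, w t) = ∫ t in u..v, w t := by
    intro u v h1 h2 h3
    rw [← intervalIntegral.integral_add_adjacent_intervals (hwi u v h1 h2 h3)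
      (hwi v y1 (h1.trans h2) h3 le_rfl)]
    ring
  have hF0 : ∀ y, y0 ≤ y → y ≤ y1 → 0 ≤ ∫ t in y..y1, w t := by
    intro y h1 h2
    exact intervalIntegral.integral_nonneg h2 fun t ht => hw0 t ⟨h1.trans ht.1, ht.2⟩
  have hmain := rows_main (C := C) (N := N) hx hanti hpos (A := A) (B := B)
    (F := fun y => ∫ t in y..y1, w t) (a := a) (y0 := y0) (y1 := y1)
    (fun y h h1 h2 h3 => L.strip h1 h2 h3)
    (fun y h1 _ => L.A_le h1) (fun y _ h2 => L.B_nonneg h2)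
    (fun y z h1 h2 _ => L.A_mono h1 h2) (fun y z _ h2 h3 => L.B_anti h3 h2)
    (fun y h1 h2 => L.AB h1 h2) (fun t ht => L.A_cont ht)
    (fun y h h1 h2 h3 => by
      rw [hFsub y (y + h) h1 (by linarith) h3]
      have h4 := trapezoid (f := w) (u := y) (v := y + h) (by linarith)
        (hwc.subset (Icc_subset_Icc h1 h3) (convex_Icc _ _)) (hwi y (y + h) h1 (by linarith) h3)
      have e : h * ((A y + A (y + h) + B y + B (y + h)) / 2 - a) =
          (y + h - y) * ((w y + w (y + h)) / 2) := by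
        simp only [hw]; ring
      rw [e]
      exact h4)
    hF0 N 0 y0 ρ rfl (Nat.zero_le _) le_rfl h01 hρ hx0 ?_
  · obtain ⟨p, q, h⟩ := hmain
    refine ⟨p, q, fun c hc => ?_⟩
    obtain ⟨i, -, h2, h3⟩ := h c hc (L.h0 c hc) (L.h1 c hc)
    exact ⟨i, h2, h3⟩
  · rw [← Finset.range_eq_Ico]
    refine le_trans ?_ hsum
    have e1 : 0 ≤ A y0 := L.A_nonneg le_rfl
    have e2 : B y0 ≤ a := L.B_le h01.le
    have e3 : ρ / 2 * (a - A y0) ≤ ρ / 2 * 2 := mul_le_mul_of_nonneg_left (by linarith) (by linarith)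
    have e4 : ρ * B y0 ≤ ρ * 2 := mul_le_mul_of_nonneg_left (by linarith) hρ.le
    have e5 : ρ * (y1 - y0) ≤ ρ * 2 := mul_le_mul_of_nonneg_left hv hρ.le
    linarith

/-- the extreme levels of a compact convex set -/
theorem exists_lev (hc : IsCompact C) (hK : Convex ℝ C) (hne : C.Nonempty) :
    ∃ y0 y1, Lev C y0 y1 := by
  obtain ⟨c, hcc, hc'⟩ := hc.exists_isMinOn hne (f := fun e : ℝ × ℝ => e.2)
    continuous_snd.continuousOn
  obtain ⟨d, hd, hd'⟩ := hc.exists_isMaxOn hne (f := fun e : ℝ × ℝ => e.2)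
    continuous_snd.continuousOn
  exact ⟨c.2, d.2, hc, hK, fun e he => hc' he, fun e he => hd' he, ⟨c, hcc, rfl⟩, ⟨d, hd, rfl⟩⟩

theorem planar_square (hc : IsCompact C) (hK : Convex ℝ C) (h00 : ((0 : ℝ), (0 : ℝ)) ∈ C)
    (h10 : ((1 : ℝ), (0 : ℝ)) ∈ C) (h01 : ((0 : ℝ), (1 : ℝ)) ∈ C) (h11 : ((1 : ℝ), (1 : ℝ)) ∈ C)
    (H : ∀ x y x' y' lam : ℝ, (x, y) ∈ C → (x + lam, y) ∈ C → (x', y') ∈ C →
      (x' + lam, y') ∈ C → lam * (y' - y) ≤ 1)
    (V : ∀ x y x' y' lam : ℝ, (x, y) ∈ C → (x, y + lam) ∈ C → (x', y') ∈ C →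
      (x', y' + lam) ∈ C → lam * (x' - x) ≤ 1)
    {x : ℕ → ℝ} {N : ℕ} (hx : ∀ i, 0 ≤ x i) (hanti : Antitone x) (hpos : ∀ i, i < N → 0 < x i)
    {ρ : ℝ} (hρ : 0 < ρ) (hx0 : x 0 ≤ ρ) (hsum : 2 + 5 * ρ ≤ ∑ i ∈ Finset.range N, x i ^ 2) :
    ∃ p q : ℕ → ℝ, ∀ c ∈ C, ∃ i, i < N ∧
      p i ≤ c.1 ∧ c.1 ≤ p i + x i ∧ q i ≤ c.2 ∧ c.2 ≤ q i + x i := by
  obtain ⟨y0, y1, L⟩ := exists_lev hc hK ⟨_, h00⟩
  have hlt : y0 < y1 := by
    have h1 := L.h0 _ h00
    have h2 := L.h1 _ h01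
    simp only at h1 h2
    linarith
  have hv : y1 - y0 ≤ 2 := by
    obtain ⟨c, hcc, h1⟩ := L.e0
    obtain ⟨d, hd, h2⟩ := L.e1
    rw [← h1, ← h2]
    exact height_le_two hK h00 h10 h01 h11 H hcc hd
  have ha : Ext C ≤ 2 := by
    obtain ⟨c, hcc, d, hd, h1, -⟩ := ext_spec hc ⟨_, h00⟩
    rw [← h1]
    have hKs : Convex ℝ (Prod.swap ⁻¹' C : Set (ℝ × ℝ)) := by
      intro u hu v hv' s t hs ht hst
      have := hK hu hv' hs ht hst
      exact this
    exact height_le_two (C := Prod.swap ⁻¹' C) hKs h00 h01 h10 h11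
      (fun x y x' y' lam m1 m2 m3 m4 => V y x y' x' lam m1 m2 m3 m4)
      (c := Prod.swap c) (d := Prod.swap d) (by simpa using hcc) (by simpa using hd)
  exact planar L hlt H hv ha hx hanti hpos hρ hx0 hsum

end Pool.Agent.H94C
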