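import Pool.Agent.H94C.Rows2
import Pool.Agent.H94C.Ext2
import Pool.Agent.H94C.Planar

/-!
# Covering a planar convex set by one large homothet and small squares
-/

set_option autoImplicit false

namespace Pool.Agent.H94C

open Set MeasureTheory

variable {C : Set (ℝ × ℝ)} {y0 y1 : ℝ}

/-- width function of the levels -/
noncomputable def wf (C : Set (ℝ × ℝ)) (y : ℝ) : ℝ := Ext (lowP C y) + Ext (upP C y) - Ext C

/-- the level of `C` which corresponds to the level `y` of the homothet -/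
noncomputable def tau (lam y1 y : ℝ) : ℝ := (y - (1 - lam) * y1) / lam

theorem tau_mono {lam : ℝ} (h : 0 < lam) (y1 : ℝ) {y z : ℝ} (hyz : y ≤ z) :
    tau lam y1 y ≤ tau lam y1 z := by
  unfold tau
  exact div_le_div_of_nonneg_right (by linarith) h.le

theorem tau_eq {lam : ℝ} (h : 0 < lam) (y1 y : ℝ) : lam * tau lam y1 y + (1 - lam) * y1 = y := by
  unfold tau
  field_simp
  ring

theorem tau_le {lam : ℝ} (h : 0 < lam) {y1 y : ℝ} (hy : y ≤ y1) : tau lam y1 y ≤ y1 := by
  have := tau_eq h y1 y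
  by_contra hlt
  push Not at hlt
  have := mul_lt_mul_of_pos_left hlt h
  linarith

/-- the homothet of ratio `lam` with the centre `P` -/
def hom (C : Set (ℝ × ℝ)) (lam : ℝ) (P : ℝ × ℝ) : Set (ℝ × ℝ) :=
  {z | ∃ c ∈ C, z = (lam * c.1 + (1 - lam) * P.1, lam * c.2 + (1 - lam) * P.2)}

/-- the width needed by a strip of the remainder -/
noncomputable def gap (C : Set (ℝ × ℝ)) (lam y1 y h : ℝ) : ℝ :=
  (Ext (lowP C (y + h)) + Ext (upP C y) - Ext C) -
    lam * (Ext (lowP C (tau lam y1 y)) + Ext (upP C (tau lam y1 (y + h))) - Ext C)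

theorem two_gap (L : Lev C y0 y1) {P : ℝ × ℝ} (hP : P ∈ C) (hP2 : P.2 = y1) {lam : ℝ}
    (hl0 : 0 < lam) (hl1 : lam ≤ 1) {y h : ℝ} (hy : y0 ≤ y) (hh : 0 ≤ h) (hy1 : y + h ≤ y1) :
    Two (C \ hom C lam P) y (y + h) (gap C lam y1 y h) := by
  obtain ⟨l, hl⟩ := L.strip hy hh hy1
  set O := Ext (lowP C (y + h)) + Ext (upP C y) - Ext C with hO
  set I := Ext (lowP C (tau lam y1 y)) + Ext (upP C (tau lam y1 (y + h))) - Ext C with hI
  have hgap : gap C lam y1 y h = O - lam * I := rfl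
  rw [hgap]
  rcases le_or_gt I 0 with hI0 | hI0
  · left
    refine ⟨l, fun c hc h1 h2 => ?_⟩
    obtain ⟨h3, h4⟩ := hl c hc.1 h1 h2
    have : lam * I ≤ 0 := mul_nonpos_of_nonneg_of_nonpos hl0.le hI0
    exact ⟨h3, by linarith⟩
  · obtain ⟨m0, hm0⟩ := L.inner_rect (tau_mono hl0 y1 (by linarith : y ≤ y + h)) hI0
    set m := lam * m0 + (1 - lam) * P.1 with hm
    -- the inner rectangle is in the homothet
    have hrect : ∀ z t, m ≤ z → z ≤ m + lam * I → y ≤ t → t ≤ y + h → (z, t) ∈ hom C lam P := by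
      intro z t h1 h2 h3 h4
      refine ⟨(m0 + (z - m) / lam, tau lam y1 t), hm0 _ _ (div_nonneg (by linarith) hl0.le) ?_
        (tau_mono hl0 y1 h3) (tau_mono hl0 y1 h4), ?_⟩
      · rw [div_le_iff₀ hl0]
        linarith
      · ext
        · simp only
          rw [hm]
          field_simp
          ring
        · simp only
          rw [hP2]
          exact (tau_eq hl0 y1 t).symm
    have hsub : ∀ z, z ∈ hom C lam P → z ∈ C := by
      rintro z ⟨c, hc, rfl⟩
      have h1 := L.hK hc hP hl0.le (sub_nonneg.2 hl1) (by ring)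
      have e : (lam * c.1 + (1 - lam) * P.1, lam * c.2 + (1 - lam) * P.2) =
          lam • c + (1 - lam) • P := Prod.ext (by simp) (by simp)
      rw [e]
      exact h1
    have hlI : 0 < lam * I := mul_pos hl0 hI0
    have h1 := hl (m, y) (hsub _ (hrect m y le_rfl (by linarith) le_rfl (by linarith))) le_rfl
      (by simpa using hh)
    have h2 := hl (m + lam * I, y) (hsub _ (hrect _ y (by linarith) le_rfl le_rfl (by linarith)))
      le_rfl (by simpa using hh)
    simp only at h1 h2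
    have hout : ∀ c ∈ C \ hom C lam P, y ≤ c.2 → c.2 ≤ y + h → c.1 < m ∨ m + lam * I < c.1 := by
      intro c hc h3 h4
      by_contra hcon
      push Not at hcon
      exact hc.2 (hrect c.1 c.2 hcon.1 hcon.2 h3 h4)
    rcases h1.1.eq_or_lt with h3 | h3
    · left
      refine ⟨m + lam * I, fun c hc h4 h5 => ?_⟩
      have h6 := hl c hc.1 h4 h5
      rcases hout c hc h4 h5 with h7 | h7
      · linarith
      · exact ⟨h7.le, by linarith⟩
    · rcases h2.2.eq_or_lt with h4 | h4
      · left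
        refine ⟨l, fun c hc h5 h6 => ?_⟩
        have h7 := hl c hc.1 h5 h6
        rcases hout c hc h5 h6 with h8 | h8
        · exact ⟨h7.1, by linarith⟩
        · linarith
      · right
        refine ⟨l, m - l, m + lam * I, l + O - (m + lam * I), by linarith, by linarith,
          by linarith, fun c hc h5 h6 => ?_⟩
        have h7 := hl c hc.1 h5 h6
        rcases hout c hc h5 h6 with h8 | h8
        · left
          exact ⟨h7.1, by linarith⟩
        · right
          exact ⟨h8.le, by linarith⟩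

theorem wf_conc (L : Lev C y0 y1) : ConcaveOn ℝ (Icc y0 y1) (wf C) := by
  have h1 : ConcaveOn ℝ (Icc y0 y1) fun y => Ext (lowP C y) + Ext (upP C y) := L.A_conc.add L.B_conc
  exact h1.sub (convexOn_const (Ext C) (convex_Icc y0 y1))

theorem wf_nonneg (L : Lev C y0 y1) {y : ℝ} (h0 : y0 ≤ y) (h1 : y ≤ y1) : 0 ≤ wf C y := by
  have := L.AB h0 h1
  unfold wf
  linarith

theorem wf_tau_le (L : Lev C y0 y1) {lam : ℝ} (hl0 : 0 < lam) (hl1 : lam ≤ 1) {y : ℝ}
    (h0 : y0 ≤ y) (h1 : y ≤ y1) : lam * wf C (tau lam y1 y) ≤ wf C y := by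
  rcases lt_or_ge (tau lam y1 y) y0 with h | h
  · have h2 : wf C (tau lam y1 y) ≤ 0 := by
      unfold wf
      rw [L.lowA_zero h]
      have := L.upB_le (tau lam y1 y)
      linarith
    have h3 := wf_nonneg L h0 h1
    have h4 : lam * wf C (tau lam y1 y) ≤ 0 := mul_nonpos_of_nonneg_of_nonpos hl0.le h2
    linarith
  · have h2 := (wf_conc L).2 (⟨h, tau_le hl0 h1⟩ : tau lam y1 y ∈ Icc y0 y1)
      (⟨L.le01, le_rfl⟩ : y1 ∈ Icc y0 y1) hl0.le (sub_nonneg.2 hl1) (by ring)
    simp only [smul_eq_mul] at h2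
    rw [tau_eq hl0] at h2
    have h3 : 0 ≤ (1 - lam) * wf C y1 :=
      mul_nonneg (sub_nonneg.2 hl1) (wf_nonneg L L.le01 le_rfl)
    linarith

theorem wf_int (L : Lev C y0 y1) (u v : ℝ) : IntervalIntegrable (wf C) volume u v := by
  have h1 : IntervalIntegrable (fun y => Ext (lowP C y)) volume u v :=
    Monotone.intervalIntegrable fun _ _ h => L.lowA_mono h
  have h2 : IntervalIntegrable (fun y => Ext (upP C y)) volume u v :=
    Antitone.intervalIntegrable fun _ _ h => L.upB_anti h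
  exact (h1.add h2).sub (by simp)

theorem wft_int (L : Lev C y0 y1) {lam : ℝ} (hl0 : 0 < lam) (u v : ℝ) :
    IntervalIntegrable (fun y => lam * wf C (tau lam y1 y)) volume u v := by
  have h1 : IntervalIntegrable (fun y => Ext (lowP C (tau lam y1 y))) volume u v :=
    Monotone.intervalIntegrable fun _ _ h => L.lowA_mono (tau_mono hl0 y1 h)
  have h2 : IntervalIntegrable (fun y => Ext (upP C (tau lam y1 y))) volume u v :=
    Antitone.intervalIntegrable fun _ _ h => L.upB_anti (tau_mono hl0 y1 h)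
  exact ((h1.add h2).sub (by simp : IntervalIntegrable (fun _ => Ext C) volume u v)).const_mul lam

/-- the area of the remainder above the level `y` -/
noncomputable def rem (C : Set (ℝ × ℝ)) (lam y1 y : ℝ) : ℝ :=
  ∫ t in y..y1, (wf C t - lam * wf C (tau lam y1 t))

theorem rem_nonneg (L : Lev C y0 y1) {lam : ℝ} (hl0 : 0 < lam) (hl1 : lam ≤ 1) {y : ℝ}
    (h0 : y0 ≤ y) (h1 : y ≤ y1) : 0 ≤ rem C lam y1 y :=
  intervalIntegral.integral_nonneg h1 fun _ ht =>
    sub_nonneg.2 (wf_tau_le L hl0 hl1 (h0.trans ht.1) ht.2)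

theorem rem_le (L : Lev C y0 y1) {lam : ℝ} (hl0 : 0 < lam) (hl1 : lam ≤ 1)
    (harea : ∫ t in y0..y1, wf C t ≤ 2) : rem C lam y1 y0 ≤ 2 * (1 - lam ^ 2) := by
  unfold rem
  rw [intervalIntegral.integral_sub (wf_int L _ _) (wft_int L hl0 _ _)]
  set z : ℝ := lam * y0 + (1 - lam) * y1 with hz
  have h01 := L.le01
  have hz0 : y0 ≤ z := by rw [hz]; nlinarith
  have hz1 : z ≤ y1 := by rw [hz]; nlinarith
  have h1 : lam ^ 2 * ∫ t in y0..y1, wf C t ≤ ∫ t in y0..y1, lam * wf C (tau lam y1 t) := by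
    rw [← intervalIntegral.integral_add_adjacent_intervals (wft_int L hl0 y0 z)
      (wft_int L hl0 z y1)]
    have h2 : 0 ≤ ∫ t in y0..z, lam * wf C (tau lam y1 t) := by
      refine intervalIntegral.integral_nonneg hz0 fun t ht => mul_nonneg hl0.le ?_
      have h3 : tau lam y1 t ≤ y0 := by
        have h4 := tau_eq hl0 y1 t
        have h5 := ht.2
        rw [hz] at h5
        by_contra hlt
        push Not at hlt
        have := mul_lt_mul_of_pos_left hlt hl0
        linarith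
      unfold wf
      rw [L.upB_full h3]
      have := L.lowA_nonneg (tau lam y1 t)
      linarith
    have h3 : ∫ t in z..y1, lam * wf C (tau lam y1 t) = lam ^ 2 * ∫ t in y0..y1, wf C t := by
      rw [intervalIntegral.integral_const_mul]
      have h4 : (fun t => wf C (tau lam y1 t)) =
          fun t => wf C (t / lam - (1 - lam) * y1 / lam) := by
        funext t
        unfold tau
        rw [sub_div]
      rw [h4, intervalIntegral.integral_comp_div_sub (wf C) hl0.ne' ((1 - lam) * y1 / lam)]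
      have e1 : z / lam - (1 - lam) * y1 / lam = y0 := by
        rw [hz]; field_simp; ring
      have e2 : y1 / lam - (1 - lam) * y1 / lam = y1 := by
        field_simp; ring
      rw [e1, e2, smul_eq_mul]
      ring
    linarith
  have h5 : (1 - lam ^ 2) * ∫ t in y0..y1, wf C t ≤ (1 - lam ^ 2) * 2 :=
    mul_le_mul_of_nonneg_left harea (by nlinarith)
  linarith

/-- the weight of the largest side in the potential -/
noncomputable def pe (C : Set (ℝ × ℝ)) (lam y1 y : ℝ) : ℝ :=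
  (Ext C - Ext (lowP C y)) / 2 + Ext (upP C y) +
    lam * (Ext C - Ext (lowP C (tau lam y1 y)) + Ext (upP C (tau lam y1 y))) + 2 * (y1 - y)

theorem gap_nonneg (L : Lev C y0 y1) {lam : ℝ} (hl0 : 0 < lam) (hl1 : lam ≤ 1) {y h : ℝ}
    (h0 : y0 ≤ y) (hh : 0 ≤ h) (h1 : y + h ≤ y1) : 0 ≤ gap C lam y1 y h := by
  have h2 := wf_tau_le L hl0 hl1 h0 (by linarith : y ≤ y1)
  have h3 := L.lowA_mono (by linarith : y ≤ y + h)
  have h4 := L.upB_anti (tau_mono hl0 y1 (by linarith : y ≤ y + h))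
  have h5 : lam * Ext (upP C (tau lam y1 (y + h))) ≤ lam * Ext (upP C (tau lam y1 y)) :=
    mul_le_mul_of_nonneg_left h4 hl0.le
  unfold gap
  unfold wf at h2
  linarith

theorem gap_le (L : Lev C y0 y1) {lam : ℝ} (hl0 : 0 < lam) {y h : ℝ}
    (hh : 0 ≤ h) (h1 : y + h ≤ y1) : gap C lam y1 y h ≤ pe C lam y1 y := by
  have h2 := L.lowA_le (y + h)
  have h3 := L.lowA_le y
  have h4 : 0 ≤ lam * Ext (upP C (tau lam y1 (y + h))) := mul_nonneg hl0.le (L.upB_nonneg _)
  have h5 : 0 ≤ lam * Ext (upP C (tau lam y1 y)) := mul_nonneg hl0.le (L.upB_nonneg _)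
  unfold gap pe
  nlinarith

theorem gap_cont (L : Lev C y0 y1) {lam : ℝ} (hl0 : 0 < lam) {y t : ℝ}
    (h0 : y0 ≤ y) (ht : 0 < t) : ContinuousOn (gap C lam y1 y) (Icc t (y1 - y)) := by
  have h1 : ContinuousOn (fun h => Ext (lowP C (y + h))) (Icc t (y1 - y)) := by
    refine (L.A_cont (t := y + t) (by linarith)).comp (by fun_prop) fun h hh => ?_
    exact ⟨by linarith [hh.1], by linarith [hh.2]⟩
  have h2 : ContinuousOn (fun h => Ext (upP C (tau lam y1 (y + h)))) (Icc t (y1 - y)) := by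
    refine L.B_cont.comp (s := Icc t (y1 - y)) (t := Iic y1) (f := fun h => tau lam y1 (y + h)) ?_
      fun h hh => ?_
    · unfold tau
      fun_prop
    · exact tau_le hl0 (by linarith [hh.2])
  unfold gap
  exact ((h1.add continuousOn_const).sub continuousOn_const).sub
    (continuousOn_const.mul ((continuousOn_const.add h2).sub continuousOn_const))

theorem step (L : Lev C y0 y1) {lam : ℝ} (hl0 : 0 < lam) {y h : ℝ}
    (h0 : y0 ≤ y) (hh : 0 ≤ h) (h1 : y + h ≤ y1) :
    rem C lam y1 (y + h) + h * pe C lam y1 (y + h) + 2 * h ^ 2 + h * gap C lam y1 y h ≤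
      rem C lam y1 y + h * pe C lam y1 y := by
  have hint : ∀ u v, IntervalIntegrable (fun t => wf C t - lam * wf C (tau lam y1 t)) volume u v :=
    fun u v => (wf_int L u v).sub (wft_int L hl0 u v)
  have e1 : rem C lam y1 y - rem C lam y1 (y + h) =
      (∫ t in y..(y + h), wf C t) - ∫ t in y..(y + h), lam * wf C (tau lam y1 t) := by
    unfold rem
    rw [← intervalIntegral.integral_add_adjacent_intervals (hint y (y + h)) (hint (y + h) y1),
      intervalIntegral.integral_sub (wf_int L _ _) (wft_int L hl0 _ _)]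
    ring
  have e2 := trapezoid (f := wf C) (u := y) (v := y + h) (by linarith)
    ((wf_conc L).subset (Icc_subset_Icc h0 h1) (convex_Icc _ _)) (wf_int L _ _)
  have e3 : ∫ t in y..(y + h), lam * wf C (tau lam y1 t) ≤
      h * (lam * (Ext (lowP C (tau lam y1 (y + h))) + Ext (upP C (tau lam y1 y)) - Ext C)) := by
    have h2 : ∫ t in y..(y + h), lam * wf C (tau lam y1 t) ≤ ∫ _t in y..(y + h),
        (lam * (Ext (lowP C (tau lam y1 (y + h))) + Ext (upP C (tau lam y1 y)) - Ext C)) := by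
      refine intervalIntegral.integral_mono_on (by linarith) (wft_int L hl0 _ _) (by simp)
        fun t ht => mul_le_mul_of_nonneg_left ?_ hl0.le
      have h3 := L.lowA_mono (tau_mono hl0 y1 ht.2)
      have h4 := L.upB_anti (tau_mono hl0 y1 ht.1)
      unfold wf
      linarith
    rw [intervalIntegral.integral_const, smul_eq_mul] at h2
    have h5 : y + h - y = h := by ring
    rw [h5] at h2
    exact h2
  have e4 := mul_nonneg hh (sub_nonneg.2 (L.upB_anti (by linarith : y ≤ y + h)))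
  unfold wf at e2
  have h5 : y + h - y = h := by ring
  rw [h5] at e2
  unfold pe gap
  unfold wf at e1 e3
  nlinarith

theorem planar_large (L : Lev C y0 y1) (h01 : y0 < y1) {P : ℝ × ℝ} (hP : P ∈ C) (hP2 : P.2 = y1)
    (hv : y1 - y0 ≤ 2) (ha : Ext C ≤ 2) (harea : ∫ t in y0..y1, wf C t ≤ 2)
    {lam : ℝ} (hl0 : 0 < lam) (hl1 : lam ≤ 1)
    {x : ℕ → ℝ} {N : ℕ} (hx : ∀ i, 0 ≤ x i) (hanti : Antitone x) (hpos : ∀ i, i < N → 0 < x i)
    {ρ : ℝ} (hρ : 0 < ρ) (hx0 : x 0 ≤ ρ)
    (hsum : 2 * (1 - lam ^ 2) + (7 + 4 * lam) * ρ + ρ ^ 2 ≤ ∑ i ∈ Finset.range N, x i ^ 2) :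
    ∃ p q : ℕ → ℝ, ∀ c ∈ C, c ∉ hom C lam P → ∃ i, i < N ∧
      p i ≤ c.1 ∧ c.1 ≤ p i + x i ∧ q i ≤ c.2 ∧ c.2 ≤ q i + x i := by
  have hmain := rows2_main (D := C \ hom C lam P) (N := N) hx hanti hpos
    (G := gap C lam y1) (E := pe C lam y1) (F := rem C lam y1) (y0 := y0) (y1 := y1)
    (fun y h h1 h2 h3 => two_gap L hP hP2 hl0 hl1 h1 h2.le h3)
    (fun y h h1 h2 h3 => gap_nonneg L hl0 hl1 h1 h2 h3)
    (fun y h _ h2 h3 => gap_le L hl0 h2 h3)
    (fun y t h1 h2 => gap_cont L hl0 h1 h2)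
    (fun y h h1 h2 h3 => step L hl0 h1 h2 h3)
    (fun y h1 h2 => rem_nonneg L hl0 hl1 h1 h2)
    N 0 y0 ρ rfl (Nat.zero_le _) le_rfl h01 hρ hx0 ?_
  · obtain ⟨p, q, h⟩ := hmain
    refine ⟨p, q, fun c hc hc' => ?_⟩
    obtain ⟨i, -, h2, h3⟩ := h c ⟨hc, hc'⟩ (L.h0 c hc) (L.h1 c hc)
    exact ⟨i, h2, h3⟩
  · rw [← Finset.range_eq_Ico]
    refine le_trans ?_ hsum
    have h1 := rem_le L hl0 hl1 harea
    have h2 : pe C lam y1 y0 ≤ 7 + 4 * lam := by
      unfold pe
      have e1 := L.lowA_nonneg y0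
      have e2 := L.upB_le y0
      have e3 := L.lowA_nonneg (tau lam y1 y0)
      have e4 := L.upB_le (tau lam y1 y0)
      have e5 : lam * (Ext C - Ext (lowP C (tau lam y1 y0)) + Ext (upP C (tau lam y1 y0))) ≤
          lam * 4 := mul_le_mul_of_nonneg_left (by linarith) hl0.le
      linarith
    have h3 : ρ * pe C lam y1 y0 ≤ ρ * (7 + 4 * lam) := mul_le_mul_of_nonneg_left h2 hρ.le
    linarith

end Pool.Agent.H94C
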