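import Mathlib
import Pool.Agent.H55.Cov.Basic

/-!
# Covering a planar set row by row by squares of decreasing sides
-/

set_option autoImplicit false

namespace Pool.Agent.H94C

open Finset

/-- the squares number `s ≤ i < e`, of sides `x i`, cover the part of `C` between the levels
`y` and `z` -/
def CovS (C : Set (ℝ × ℝ)) (x : ℕ → ℝ) (s e : ℕ) (y z : ℝ) : Prop :=
  ∃ p q : ℕ → ℝ, ∀ c ∈ C, y ≤ c.2 → c.2 ≤ z → ∃ i, s ≤ i ∧ i < e ∧
    p i ≤ c.1 ∧ c.1 ≤ p i + x i ∧ q i ≤ c.2 ∧ c.2 ≤ q i + x i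

variable {C : Set (ℝ × ℝ)} {x : ℕ → ℝ}

theorem CovS.mono {s e e' : ℕ} {y z : ℝ} (h : CovS C x s e y z) (he : e ≤ e') :
    CovS C x s e' y z := by
  obtain ⟨p, q, h⟩ := h
  refine ⟨p, q, fun c hc h1 h2 => ?_⟩
  obtain ⟨i, h3, h4, h5⟩ := h c hc h1 h2
  exact ⟨i, h3, by omega, h5⟩

theorem CovS.glue {s m e : ℕ} {y z t : ℝ} (h : CovS C x s m y z) (h' : CovS C x m e z t)
    (hs : s ≤ m) (he : m ≤ e) : CovS C x s e y t := by
  classical
  obtain ⟨p, q, h⟩ := h
  obtain ⟨p', q', h'⟩ := h'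
  refine ⟨fun i => if i < m then p i else p' i, fun i => if i < m then q i else q' i,
    fun c hc h1 h2 => ?_⟩
  by_cases hz : c.2 ≤ z
  · obtain ⟨i, h3, h4, h5⟩ := h c hc h1 hz
    refine ⟨i, h3, by omega, ?_⟩
    simp only [h4, if_true]
    exact h5
  · push Not at hz
    obtain ⟨i, h3, h4, h5⟩ := h' c hc hz.le h2
    refine ⟨i, by omega, h4, ?_⟩
    simp only [not_lt.2 h3, if_false]
    exact h5

theorem row (hx : ∀ i, 0 ≤ x i) {s e : ℕ} (hse : s ≤ e) {y h g l : ℝ}
    (hh : ∀ i, s ≤ i → i < e → h ≤ x i) (hg : g ≤ ∑ i ∈ Ico s e, x i)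
    (hpos : 0 < ∑ i ∈ Ico s e, x i)
    (hC : ∀ c ∈ C, y ≤ c.2 → c.2 ≤ y + h → l ≤ c.1 ∧ c.1 ≤ l + g) :
    CovS C x s e y (y + h) := by
  refine ⟨fun i => l + ∑ k ∈ Ico s i, x k, fun _ => y, fun c hc h1 h2 => ?_⟩
  obtain ⟨h3, h4⟩ := hC c hc h1 h2
  obtain ⟨i, h5, h6, -, h7, h8⟩ := Pool.Agent.H55.Homo.line_cover hx s e hse (c.1 - l)
    (by linarith) (by linarith) hpos
  refine ⟨i, h5, h6, ?_, ?_, h1, ?_⟩
  · linarith
  · linarith
  · linarith [hh i h5 h6]

/-- one step of the potential -/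
theorem pot {F F' α α' β β' a h X ρ V g : ℝ} (h1 : α ≤ α') (h2 : α' ≤ a) (h3 : β' ≤ β)
    (h4 : 0 ≤ β') (hF : h * ((α + α' + β + β') / 2 - a) ≤ F - F') (hV : h ≤ V) (hh : 0 ≤ h)
    (hX : h ≤ X) (hρ : X ≤ ρ) (hg : g = α' + β - a) :
    F' + h / 2 * (a - α') + h * β' + h * (V - h) + (X * g + h ^ 2) ≤
      F + ρ / 2 * (a - α) + ρ * β + ρ * V := by
  have e1 : 0 ≤ (ρ - X) * ((a - α) / 2 + β + V) :=
    mul_nonneg (by linarith) (by linarith)
  have e2 : 0 ≤ (X - h) * (a - α) := mul_nonneg (by linarith) (by linarith)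
  have e3 : 0 ≤ (X - h) * (a - α') := mul_nonneg (by linarith) (by linarith)
  have e4 : 0 ≤ (X - h) * V := mul_nonneg (by linarith) (by linarith)
  have e5 : 0 ≤ h * (β - β') := mul_nonneg hh (by linarith)
  subst hg
  nlinarith

theorem rows_main {N : ℕ} (hx : ∀ i, 0 ≤ x i) (hanti : Antitone x) (hpos : ∀ i, i < N → 0 < x i)
    {A B F : ℝ → ℝ} {a y0 y1 : ℝ}
    (hG : ∀ y h, y0 ≤ y → 0 ≤ h → y + h ≤ y1 → ∃ l, ∀ c ∈ C, y ≤ c.2 → c.2 ≤ y + h →
      l ≤ c.1 ∧ c.1 ≤ l + (A (y + h) + B y - a))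
    (hAa : ∀ y, y0 ≤ y → y ≤ y1 → A y ≤ a) (hB0 : ∀ y, y0 ≤ y → y ≤ y1 → 0 ≤ B y)
    (hA : ∀ y z, y0 ≤ y → y ≤ z → z ≤ y1 → A y ≤ A z)
    (hB : ∀ y z, y0 ≤ y → y ≤ z → z ≤ y1 → B z ≤ B y)
    (hAB : ∀ y, y0 ≤ y → y ≤ y1 → a ≤ A y + B y)
    (hAc : ∀ t, y0 < t → ContinuousOn A (Set.Icc t y1))
    (hF : ∀ y h, y0 ≤ y → 0 ≤ h → y + h ≤ y1 →
      h * ((A y + A (y + h) + B y + B (y + h)) / 2 - a) ≤ F y - F (y + h))
    (hF0 : ∀ y, y0 ≤ y → y ≤ y1 → 0 ≤ F y) :
    ∀ n s y ρ, N - s = n → s ≤ N → y0 ≤ y → y < y1 → 0 < ρ → x s ≤ ρ →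
      F y + ρ / 2 * (a - A y) + ρ * B y + ρ * (y1 - y) ≤ ∑ i ∈ Ico s N, x i ^ 2 →
      CovS C x s N y y1 := by
  classical
  intro n
  induction n using Nat.strong_induction_on with
  | _ n ih =>
    intro s y ρ hn hsN hy hy1 hρ hxs hsum
    have hFy := hF0 y hy hy1.le
    have hAy := hAa y hy hy1.le
    have hBy := hB0 y hy hy1.le
    rcases hsN.eq_or_lt with hs | hs
    · exfalso
      rw [hs, Ico_self, sum_empty] at hsum
      have := mul_pos hρ (sub_pos.2 hy1)
      have h2 : 0 ≤ ρ / 2 * (a - A y) := mul_nonneg (by linarith) (by linarith)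
      have h3 : 0 ≤ ρ * B y := mul_nonneg hρ.le hBy
      linarith
    set V := y1 - y with hV
    have hV0 : 0 < V := sub_pos.2 hy1
    set Q : ℕ → Prop := fun j => s ≤ j ∧ j < N ∧
      A (y + min (x j) V) + B y - a ≤ ∑ i ∈ Ico s (j + 1), x i with hQ
    have hsq : ∀ e, s ≤ e → ∑ i ∈ Ico s e, x i ^ 2 ≤ x s * ∑ i ∈ Ico s e, x i := by
      intro e _
      rw [mul_sum]
      refine sum_le_sum fun i hi => ?_
      rw [mem_Ico] at hi
      rw [pow_two]
      exact mul_le_mul_of_nonneg_right (hanti hi.1) (hx i)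
    by_cases hex : ∃ j, Q j
    swap
    · -- not enough squares
      exfalso
      push Not at hex
      obtain ⟨j, hj⟩ : ∃ j, N = j + 1 := ⟨N - 1, by omega⟩
      have h1 : ¬ Q j := hex j
      have h2 : ∑ i ∈ Ico s (j + 1), x i < A (y + min (x j) V) + B y - a := by
        by_contra h
        push Not at h
        exact h1 ⟨by omega, by omega, h⟩
      have hm : 0 ≤ min (x j) V := le_min (hx j) hV0.le
      have hm' : y + min (x j) V ≤ y1 := by
        have := min_le_right (x j) V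
        linarith
      have h3 := hAa (y + min (x j) V) (by linarith) hm'
      have h4 := hsq (j + 1) (by omega)
      rw [hj] at hsum
      have h5 : x s * ∑ i ∈ Ico s (j + 1), x i ≤ x s * B y :=
        mul_le_mul_of_nonneg_left (by linarith) (hx s)
      have h6 : x s * B y ≤ ρ * B y := mul_le_mul_of_nonneg_right hxs hBy
      have h7 : 0 < ρ * V := mul_pos hρ hV0
      have h8 : 0 ≤ ρ / 2 * (a - A y) := mul_nonneg (by linarith) (by linarith)
      linarith
    set e := Nat.find hex with he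
    obtain ⟨hse, heN, hQe⟩ : Q e := Nat.find_spec hex
    have hmin : ∀ j, j < e → ¬ Q j := fun j hj => Nat.find_min hex hj
    have hSpos : ∀ k, s < k → k ≤ N → 0 < ∑ i ∈ Ico s k, x i := by
      intro k hk hkN
      refine sum_pos (fun i hi => ?_) ⟨s, mem_Ico.2 ⟨le_rfl, hk⟩⟩
      rw [mem_Ico] at hi
      exact hpos i (by omega)
    by_cases hxe : V ≤ x e
    · -- one row covers everything
      rw [min_eq_right hxe] at hQe
      obtain ⟨l, hl⟩ := hG y V hy hV0.le (by linarith)
      have h1 := row hx (by omega : s ≤ e + 1) (y := y) (h := V) (l := l)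
        (fun i _ hi => hxe.trans (hanti (by omega))) hQe (hSpos _ (by omega) (by omega)) hl
      rw [show y + V = y1 by rw [hV]; ring] at h1
      exact h1.mono (by omega)
    push Not at hxe
    rw [min_eq_left hxe.le] at hQe
    have hxe0 : 0 < x e := hpos e heN
    have hxes : x e ≤ x s := hanti hse
    have hg0 : 0 ≤ A (y + x e) + B y - a := by
      have h1 := hAB y hy hy1.le
      have h2 := hA y (y + x e) hy (by linarith) (by linarith)
      linarith
    have hsplit : ∀ k, s ≤ k → k ≤ N →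
        ∑ i ∈ Ico s N, x i ^ 2 = ∑ i ∈ Ico s k, x i ^ 2 + ∑ i ∈ Ico k N, x i ^ 2 :=
      fun k h1 h2 => (sum_Ico_consecutive _ h1 h2).symm
    have hstep : ∀ h g, 0 < h → h < V → h ≤ x s → g = A (y + h) + B y - a →
        F (y + h) + h / 2 * (a - A (y + h)) + h * B (y + h) + h * (y1 - (y + h)) +
          (x s * g + h ^ 2) ≤ ∑ i ∈ Ico s N, x i ^ 2 := by
      intro h g h1 h2 h3 h4
      have h5 : y + h ≤ y1 := by linarith
      have h6 := pot (hA y (y + h) hy (by linarith) h5) (hAa (y + h) (by linarith) h5)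
        (hB y (y + h) hy (by linarith) h5) (hB0 (y + h) (by linarith) h5)
        (hF y h hy h1.le h5) h2.le h1.le h3 hxs h4
      rw [show y1 - (y + h) = V - h by rw [hV]; ring]
      exact h6.trans hsum
    by_cases hc : ∑ i ∈ Ico s e, x i ≤ A (y + x e) + B y - a
    · -- row of height x e with squares s..e
      obtain ⟨l, hl⟩ := hG y (x e) hy hxe0.le (by linarith)
      have h1 := row hx (by omega : s ≤ e + 1) (y := y) (h := x e) (l := l)
        (fun i _ hi => hanti (by omega)) hQe (hSpos _ (by omega) (by omega)) hl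
      refine h1.glue (ih (N - (e + 1)) (by omega) (e + 1) (y + x e) (x e) rfl (by omega)
        (by linarith) (by linarith) hxe0 (hanti (by omega)) ?_) (by omega) (by omega)
      have h2 := hstep (x e) _ hxe0 hxe hxes rfl
      have h3 := hsplit (e + 1) (by omega) (by omega)
      rw [sum_Ico_succ_top hse] at h3
      have h4 := hsq e hse
      have h5 : x s * ∑ i ∈ Ico s e, x i ≤ x s * (A (y + x e) + B y - a) :=
        mul_le_mul_of_nonneg_left hc (hx s)
      linarith
    · -- row of intermediate height with squares s..e-1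
      push Not at hc
      have hse' : s < e := by
        rcases hse.eq_or_lt with h | h
        · rw [← h, Ico_self, sum_empty] at hc
          rw [← h] at hg0
          linarith
        · exact h
      obtain ⟨j, hj⟩ : ∃ j, e = j + 1 := ⟨e - 1, by omega⟩
      have h1 : ¬ Q j := hmin j (by omega)
      have h2 : ∑ i ∈ Ico s e, x i < A (y + min (x j) V) + B y - a := by
        by_contra h
        push Not at h
        rw [hj] at h
        exact h1 ⟨by omega, by omega, h⟩
      set M := min (x j) V with hM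
      have hxeM : x e ≤ M := le_min (hanti (by omega)) hxe.le
      have hMV : M ≤ V := min_le_right _ _
      have hcont : ContinuousOn (fun u => A (y + u) + B y - a) (Set.Icc (x e) M) := by
        have h3 : ContinuousOn (fun u => A (y + u)) (Set.Icc (x e) M) := by
          refine (hAc (y + x e) (by linarith)).comp (continuous_const.add continuous_id).continuousOn
            fun u hu => ?_
          obtain ⟨h4, h5⟩ := hu
          show y + u ∈ Set.Icc (y + x e) y1
          exact ⟨by linarith, by linarith⟩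
        exact (h3.add continuousOn_const).sub continuousOn_const
      obtain ⟨h, ⟨hh1, hh2⟩, hh3⟩ := intermediate_value_Icc hxeM hcont
        (show ∑ i ∈ Ico s e, x i ∈ Set.Icc (A (y + x e) + B y - a) (A (y + M) + B y - a) from
          ⟨hc.le, h2.le⟩)
      simp only at hh3
      have hhM : h < M := by
        rcases hh2.eq_or_lt with h4 | h4
        · rw [h4] at hh3
          linarith
        · exact h4
      have hh0 : 0 < h := by linarith
      have hhV : h < V := by linarith
      have hhj : h ≤ x j := hh2.trans (min_le_left _ _)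
      obtain ⟨l, hl⟩ := hG y h hy hh0.le (by linarith)
      have h4 := row hx hse (y := y) (h := h) (l := l)
        (fun i _ hi => hhj.trans (hanti (by omega))) hh3.le (hSpos _ hse' (by omega)) hl
      refine h4.glue (ih (N - e) (by omega) e (y + h) h rfl (by omega) (by linarith)
        (by linarith) hh0 hh1 ?_) hse (by omega)
      have h5 := hstep h _ hh0 hhV (hhj.trans (hanti (by omega))) rfl
      have h6 := hsplit e hse (by omega)
      have h7 := hsq e hse
      rw [← hh3] at h7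
      have h8 := sq_nonneg h
      linarith

end Pool.Agent.H94C
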