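import Pool.Agent.H94C.Rows

/-!
# Covering row by row a planar set whose strips lie in two intervals
-/

set_option autoImplicit false

namespace Pool.Agent.H94C

open Finset

variable {D : Set (ℝ × ℝ)} {x : ℕ → ℝ}

/-- the part of `D` between the levels `y` and `z` lies in an interval of length `G`, or in two
intervals of total length `G` -/
def Two (D : Set (ℝ × ℝ)) (y z G : ℝ) : Prop :=
  (∃ l, ∀ c ∈ D, y ≤ c.2 → c.2 ≤ z → l ≤ c.1 ∧ c.1 ≤ l + G) ∨
  ∃ l g l' g' : ℝ, 0 < g ∧ 0 < g' ∧ g + g' ≤ G ∧ ∀ c ∈ D, y ≤ c.2 → c.2 ≤ z →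
    (l ≤ c.1 ∧ c.1 ≤ l + g) ∨ (l' ≤ c.1 ∧ c.1 ≤ l' + g')

theorem row2 (hx : ∀ i, 0 ≤ x i) (hanti : Antitone x) {s e : ℕ} (hse : s < e) {y h G : ℝ}
    (hh : ∀ i, s ≤ i → i < e → h ≤ x i) (hg : G + x s ≤ ∑ i ∈ Ico s e, x i)
    (hpos : ∀ i, i < e → 0 < x i) (hD : Two D y (y + h) G) : CovS D x s e y (y + h) := by
  classical
  have hS : ∀ k l, s ≤ k → k < l → l ≤ e → 0 < ∑ i ∈ Ico k l, x i := by
    intro k l _ h2 h3
    refine sum_pos (fun i hi => ?_) ⟨k, mem_Ico.2 ⟨le_rfl, h2⟩⟩
    rw [mem_Ico] at hi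
    exact hpos i (by omega)
  rcases hD with ⟨l, hl⟩ | ⟨l, g, l', g', hg0, hg0', hgg, hl⟩
  · exact row hx hse.le hh (by linarith [hx s]) (hS s e le_rfl hse le_rfl) hl
  · have hex : ∃ k, s + 1 ≤ k ∧ g ≤ ∑ i ∈ Ico s k, x i :=
      ⟨e, by omega, by linarith [hx s]⟩
    set k := Nat.find hex with hk
    obtain ⟨hk1, hk2⟩ : s + 1 ≤ k ∧ g ≤ ∑ i ∈ Ico s k, x i := Nat.find_spec hex
    have hke : k ≤ e := Nat.find_min' hex ⟨by omega, by linarith [hx s]⟩
    have hlast : ∑ i ∈ Ico s k, x i ≤ g + x s := by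
      obtain ⟨j, hj⟩ : ∃ j, k = j + 1 := ⟨k - 1, by omega⟩
      rcases (show s ≤ j by omega).eq_or_lt with h | h
      · rw [hj, ← h, sum_Ico_succ_top le_rfl, Ico_self, sum_empty]
        linarith
      · have h1 : ∑ i ∈ Ico s j, x i < g := by
          by_contra hlt
          push Not at hlt
          exact Nat.find_min hex (m := j) (by omega) ⟨by omega, hlt⟩
        rw [hj, sum_Ico_succ_top (by omega)]
        have h2 : x j ≤ x s := hanti (by omega)
        linarith
    have hsplit : ∑ i ∈ Ico s e, x i = ∑ i ∈ Ico s k, x i + ∑ i ∈ Ico k e, x i :=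
      (sum_Ico_consecutive _ (by omega) hke).symm
    have hrest : g' ≤ ∑ i ∈ Ico k e, x i := by linarith
    have hke' : k < e := by
      rcases hke.eq_or_lt with h | h
      · rw [h, Ico_self, sum_empty] at hrest
        linarith
      · exact h
    refine ⟨fun i => if i < k then l + ∑ j ∈ Ico s i, x j else l' + ∑ j ∈ Ico k i, x j,
      fun _ => y, fun c hc h1 h2 => ?_⟩
    rcases hl c hc h1 h2 with ⟨h3, h4⟩ | ⟨h3, h4⟩
    · obtain ⟨i, h5, h6, -, h7, h8⟩ := Pool.Agent.H55.Homo.line_cover hx s k (by omega) (c.1 - l)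
        (by linarith) (by linarith) (hS s k le_rfl (by omega) hke)
      refine ⟨i, h5, by omega, ?_, ?_, h1, ?_⟩
      · simp only [h6, if_true]
        linarith
      · simp only [h6, if_true]
        linarith
      · linarith [hh i h5 (by omega)]
    · obtain ⟨i, h5, h6, -, h7, h8⟩ := Pool.Agent.H55.Homo.line_cover hx k e (by omega) (c.1 - l')
        (by linarith) (by linarith) (hS k e (by omega) hke' le_rfl)
      refine ⟨i, by omega, h6, ?_, ?_, h1, ?_⟩
      · simp only [not_lt.2 h5, if_false]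
        linarith
      · simp only [not_lt.2 h5, if_false]
        linarith
      · linarith [hh i (by omega) h6]

theorem rows2_main {N : ℕ} (hx : ∀ i, 0 ≤ x i) (hanti : Antitone x) (hpos : ∀ i, i < N → 0 < x i)
    {G : ℝ → ℝ → ℝ} {E F : ℝ → ℝ} {y0 y1 : ℝ}
    (hG : ∀ y h, y0 ≤ y → 0 < h → y + h ≤ y1 → Two D y (y + h) (G y h))
    (hG0 : ∀ y h, y0 ≤ y → 0 ≤ h → y + h ≤ y1 → 0 ≤ G y h)
    (hGE : ∀ y h, y0 ≤ y → 0 ≤ h → y + h ≤ y1 → G y h ≤ E y)
    (hGc : ∀ y t, y0 ≤ y → 0 < t → ContinuousOn (G y) (Set.Icc t (y1 - y)))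
    (hstep : ∀ y h, y0 ≤ y → 0 ≤ h → y + h ≤ y1 →
      F (y + h) + h * E (y + h) + 2 * h ^ 2 + h * G y h ≤ F y + h * E y)
    (hF0 : ∀ y, y0 ≤ y → y ≤ y1 → 0 ≤ F y) :
    ∀ n s y ρ, N - s = n → s ≤ N → y0 ≤ y → y < y1 → 0 < ρ → x s ≤ ρ →
      F y + ρ * E y + ρ ^ 2 ≤ ∑ i ∈ Ico s N, x i ^ 2 → CovS D x s N y y1 := by
  classical
  intro n
  induction n using Nat.strong_induction_on with
  | _ n ih =>
    intro s y ρ hn hsN hy hy1 hρ hxs hsum
    have hFy := hF0 y hy hy1.le
    have hEy : 0 ≤ E y := by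
      have h1 := hG0 y 0 hy le_rfl (by linarith)
      have h2 := hGE y 0 hy le_rfl (by linarith)
      linarith
    rcases hsN.eq_or_lt with hs | hs
    · exfalso
      rw [hs, Ico_self, sum_empty] at hsum
      have h1 : 0 < ρ ^ 2 := by positivity
      have h2 : 0 ≤ ρ * E y := mul_nonneg hρ.le hEy
      linarith
    set V := y1 - y with hV
    have hV0 : 0 < V := sub_pos.2 hy1
    set Q : ℕ → Prop := fun j => s ≤ j ∧ j < N ∧
      G y (min (x j) V) + x s ≤ ∑ i ∈ Ico s (j + 1), x i with hQ
    have hsq : ∀ e, s ≤ e → ∑ i ∈ Ico s e, x i ^ 2 ≤ x s * ∑ i ∈ Ico s e, x i := by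
      intro e _
      rw [mul_sum]
      refine sum_le_sum fun i hi => ?_
      rw [mem_Ico] at hi
      rw [pow_two]
      exact mul_le_mul_of_nonneg_right (hanti hi.1) (hx i)
    have hxs0 : 0 ≤ x s := hx s
    by_cases hex : ∃ j, Q j
    swap
    · -- not enough squares
      exfalso
      push Not at hex
      obtain ⟨j, hj⟩ : ∃ j, N = j + 1 := ⟨N - 1, by omega⟩
      have h1 : ¬ Q j := hex j
      have h2 : ∑ i ∈ Ico s (j + 1), x i < G y (min (x j) V) + x s := by
        by_contra h
        push Not at h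
        exact h1 ⟨by omega, by omega, h⟩
      have hm : 0 ≤ min (x j) V := le_min (hx j) hV0.le
      have hm' : y + min (x j) V ≤ y1 := by
        have := min_le_right (x j) V
        linarith
      have h3 := hGE y (min (x j) V) hy hm hm'
      have h4 := hsq (j + 1) (by omega)
      rw [hj] at hsum
      have hxs1 : 0 < x s := hpos s hs
      have h5 : x s * ∑ i ∈ Ico s (j + 1), x i < x s * (E y + x s) :=
        mul_lt_mul_of_pos_left (by linarith) hxs1
      have h6 : x s * E y ≤ ρ * E y := mul_le_mul_of_nonneg_right hxs hEy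
      have h7 : x s * x s ≤ ρ * ρ := mul_le_mul hxs hxs hxs0 hρ.le
      nlinarith
    set e := Nat.find hex with he
    obtain ⟨hse, heN, hQe⟩ : Q e := Nat.find_spec hex
    have hmin : ∀ j, j < e → ¬ Q j := fun j hj => Nat.find_min hex hj
    by_cases hxe : V ≤ x e
    · -- one row covers everything
      rw [min_eq_right hxe] at hQe
      have h1 := row2 hx hanti (by omega : s < e + 1) (y := y) (h := V)
        (fun i _ hi => hxe.trans (hanti (by omega))) hQe (fun i hi => hpos i (by omega))
        (hG y V hy hV0 (by linarith))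
      rw [show y + V = y1 by rw [hV]; ring] at h1
      exact h1.mono (by omega)
    push Not at hxe
    rw [min_eq_left hxe.le] at hQe
    have hxe0 : 0 < x e := hpos e heN
    have hxes : x e ≤ x s := hanti hse
    have hg0 : 0 ≤ G y (x e) := hG0 y (x e) hy hxe0.le (by linarith)
    have hsplit : ∀ k, s ≤ k → k ≤ N →
        ∑ i ∈ Ico s N, x i ^ 2 = ∑ i ∈ Ico s k, x i ^ 2 + ∑ i ∈ Ico k N, x i ^ 2 :=
      fun k h1 h2 => (sum_Ico_consecutive _ h1 h2).symm
    have hpot : ∀ h, 0 < h → h < V → h ≤ x s →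
        F (y + h) + h * E (y + h) + h ^ 2 + (x s * (G y h + x s) + h ^ 2) ≤
          ∑ i ∈ Ico s N, x i ^ 2 := by
      intro h h1 h2 h3
      have h5 : y + h ≤ y1 := by linarith
      have h6 := hstep y h hy h1.le h5
      have h7 : (x s - h) * G y h ≤ (x s - h) * E y :=
        mul_le_mul_of_nonneg_left (hGE y h hy h1.le h5) (by linarith)
      have h8 : (x s - h) * E y ≤ (ρ - h) * E y :=
        mul_le_mul_of_nonneg_right (by linarith) hEy
      have h9 : x s * x s ≤ ρ * ρ := mul_le_mul hxs hxs hxs0 hρ.le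
      nlinarith
    by_cases hc : ∑ i ∈ Ico s e, x i ≤ G y (x e) + x s
    · -- row of height x e with squares s..e
      have h1 := row2 hx hanti (by omega : s < e + 1) (y := y) (h := x e)
        (fun i _ hi => hanti (by omega)) hQe (fun i hi => hpos i (by omega))
        (hG y (x e) hy hxe0 (by linarith))
      refine h1.glue (ih (N - (e + 1)) (by omega) (e + 1) (y + x e) (x e) rfl (by omega)
        (by linarith) (by linarith) hxe0 (hanti (by omega)) ?_) (by omega) (by omega)
      have h2 := hpot (x e) hxe0 hxe hxes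
      have h3 := hsplit (e + 1) (by omega) (by omega)
      rw [sum_Ico_succ_top hse] at h3
      have h4 := hsq e hse
      have h5 : x s * ∑ i ∈ Ico s e, x i ≤ x s * (G y (x e) + x s) :=
        mul_le_mul_of_nonneg_left hc hxs0
      linarith
    · -- row of intermediate height with squares s..e-1
      push Not at hc
      have hse' : s < e := by
        rcases hse.eq_or_lt with h | h
        · rw [← h, Ico_self, sum_empty] at hc
          rw [← h] at hg0
          linarith
        · exact h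
      obtain ⟨j, hj⟩ : ∃ j, e = j + 1 := ⟨e - 1, by omega⟩
      have h1 : ¬ Q j := hmin j (by omega)
      have h2 : ∑ i ∈ Ico s e, x i < G y (min (x j) V) + x s := by
        by_contra h
        push Not at h
        rw [hj] at h
        exact h1 ⟨by omega, by omega, h⟩
      set M := min (x j) V with hM
      have hxeM : x e ≤ M := le_min (hanti (by omega)) hxe.le
      have hMV : M ≤ V := min_le_right _ _
      have hcont : ContinuousOn (fun u => G y u + x s) (Set.Icc (x e) M) :=
        ((hGc y (x e) hy hxe0).mono (Set.Icc_subset_Icc le_rfl hMV)).add continuousOn_const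
      obtain ⟨h, ⟨hh1, hh2⟩, hh3⟩ := intermediate_value_Icc hxeM hcont
        (show ∑ i ∈ Ico s e, x i ∈ Set.Icc (G y (x e) + x s) (G y M + x s) from ⟨hc.le, h2.le⟩)
      simp only at hh3
      have hhM : h < M := by
        rcases hh2.eq_or_lt with h4 | h4
        · rw [h4] at hh3
          linarith
        · exact h4
      have hh0 : 0 < h := by linarith
      have hhV : h < V := by linarith
      have hhj : h ≤ x j := hh2.trans (min_le_left _ _)
      have h4 := row2 hx hanti hse' (y := y) (h := h)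
        (fun i _ hi => hhj.trans (hanti (by omega))) hh3.le (fun i hi => hpos i (by omega))
        (hG y h hy hh0 (by linarith))
      refine h4.glue (ih (N - e) (by omega) e (y + h) h rfl (by omega) (by linarith)
        (by linarith) hh0 hh1 ?_) hse (by omega)
      have h5 := hpot h hh0 hhV (hhj.trans (hanti (by omega)))
      have h6 := hsplit e hse (by omega)
      have h7 := hsq e hse
      rw [← hh3] at h7
      have h8 := sq_nonneg h
      linarith

end Pool.Agent.H94C
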