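import Mathlib

/-!
# Points of a simplex with a large barycentric coordinate
-/

set_option autoImplicit false

namespace Pool.Agent.H94C

open MeasureTheory Set
open scoped Pointwise

/-- the open simplex `v_i > 0`, `∑ v_i < T` -/
def simplexT (T : ℝ) (n : ℕ) : Set (Fin n → ℝ) := {v | (∀ i, 0 < v i) ∧ ∑ i, v i < T}

theorem mem_smul_simplex {n : ℕ} {c T : ℝ} (hc : 0 < c) {v : Fin n → ℝ} (h1 : ∀ i, 0 < v i)
    (h2 : ∑ i, v i < T * c) : v ∈ c • simplexT T n := by
  rw [mem_smul_set_iff_inv_smul_mem₀ hc.ne']
  refine ⟨fun i => ?_, ?_⟩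
  · simp only [Pi.smul_apply, smul_eq_mul]
    exact mul_pos (inv_pos.2 hc) (h1 i)
  · simp only [Pi.smul_apply, smul_eq_mul]
    rw [← Finset.mul_sum, inv_mul_lt_iff₀ hc]
    linarith

theorem vol_smul_simplex (n : ℕ) (T : ℝ) {c : ℝ} (hc : 0 < c) :
    volume (c • simplexT T n) = ENNReal.ofReal (c ^ n) * volume (simplexT T n) := by
  rw [Measure.addHaar_smul, Module.finrank_fin_fun, abs_of_pos (pow_pos hc n)]

/-- The share of the simplex where some of the `n + 1` barycentric coordinates exceeds `t` -/
theorem share (n : ℕ) {t T : ℝ} (hT : 0 < T) (ht : t < T) :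
    volume {v | v ∈ simplexT T n ∧ ((∃ i, t < v i) ∨ t < T - ∑ i, v i)} ≤
      ((n : ENNReal) + 1) * ENNReal.ofReal ((1 - t / T) ^ n) * volume (simplexT T n) := by
  have hc : 0 < 1 - t / T := by rw [sub_pos, div_lt_one hT]; exact ht
  set c : ℝ := 1 - t / T with hcd
  have hct : T * c = T - t := by rw [hcd]; field_simp
  have hsub : {v | v ∈ simplexT T n ∧ ((∃ i, t < v i) ∨ t < T - ∑ i, v i)} ⊆
      (⋃ i : Fin n, (fun v : Fin n → ℝ => v + -(Pi.single i t)) ⁻¹' (c • simplexT T n)) ∪
        c • simplexT T n := by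
    rintro v ⟨⟨h1, h2⟩, h3⟩
    rcases h3 with ⟨i, hi⟩ | h3
    · left
      refine mem_iUnion.2 ⟨i, ?_⟩
      show v + -(Pi.single i t) ∈ c • simplexT T n
      refine mem_smul_simplex hc (fun j => ?_) ?_
      · rcases eq_or_ne j i with h | h
        · subst h
          simp only [Pi.add_apply, Pi.neg_apply, Pi.single_eq_same]
          linarith
        · simp only [Pi.add_apply, Pi.neg_apply, Pi.single_eq_of_ne h]
          have := h1 j
          linarith
      · have e : ∑ j, (v + -(Pi.single i t : Fin n → ℝ)) j = ∑ j, v j - t := by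
          simp only [Pi.add_apply, Pi.neg_apply]
          rw [Finset.sum_add_distrib, Finset.sum_neg_distrib, Finset.sum_pi_single']
          simp
          ring
        rw [e, hct]
        linarith
    · right
      exact mem_smul_simplex hc h1 (by linarith)
  refine (measure_mono hsub).trans ((measure_union_le _ _).trans ?_)
  have h4 : volume (⋃ i : Fin n,
      (fun v : Fin n → ℝ => v + -(Pi.single i t)) ⁻¹' (c • simplexT T n)) ≤
        n * (ENNReal.ofReal (c ^ n) * volume (simplexT T n)) := by
    refine (measure_iUnion_fintype_le _ _).trans ?_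
    have h5 : ∀ i : Fin n,
        volume ((fun v : Fin n → ℝ => v + -(Pi.single i t)) ⁻¹' (c • simplexT T n)) =
          ENNReal.ofReal (c ^ n) * volume (simplexT T n) := by
      intro i
      rw [measure_preimage_add_right, vol_smul_simplex n T hc]
    simp only [h5, Finset.sum_const, Finset.card_univ, Fintype.card_fin, nsmul_eq_mul]
    exact le_rfl
  rw [vol_smul_simplex n T hc]
  calc _ ≤ n * (ENNReal.ofReal (c ^ n) * volume (simplexT T n)) +
        ENNReal.ofReal (c ^ n) * volume (simplexT T n) := add_le_add h4 le_rfl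
    _ = _ := by ring

end Pool.Agent.H94C
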