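import Mathlib
import Pool.Agent.H94C.Share

/-!
# Points of a simplex whose large barycentric coordinates have a large sum
-/

set_option autoImplicit false

namespace Pool.Agent.H94C

open MeasureTheory Set
open scoped Pointwise

/-- the number of `k ≥ 1` with `k s < x` -/
noncomputable def gs (s x : ℝ) : ℕ := ⌈x / s⌉₊ - 1

theorem gs_sub {s x : ℝ} (hs : 0 < s) : gs s (x - s) = gs s x - 1 := by
  unfold gs
  have h1 : (x - s) / s = x / s - ((1 : ℕ) : ℝ) := by
    rw [sub_div, div_self hs.ne', Nat.cast_one]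
  rw [h1, Nat.ceil_sub_natCast]

theorem lt_of_gs {s x : ℝ} (hs : 0 < s) (h : 1 ≤ gs s x) : s < x := by
  unfold gs at h
  have h1 : 1 < ⌈x / s⌉₊ := by omega
  have h2 : (1 : ℝ) < x / s := by
    have := Nat.lt_ceil.1 h1
    simpa using this
  rwa [lt_div_iff₀ hs, one_mul] at h2

theorem sub_le_gs {s x : ℝ} (hs : 0 < s) : x - s ≤ s * gs s x := by
  unfold gs
  have h1 : x / s ≤ ⌈x / s⌉₊ := Nat.le_ceil _
  have h2 : ((⌈x / s⌉₊ : ℕ) : ℝ) ≤ ((⌈x / s⌉₊ - 1 : ℕ) : ℝ) + 1 := by
    have : ⌈x / s⌉₊ ≤ (⌈x / s⌉₊ - 1) + 1 := by omega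
    exact_mod_cast this
  have h3 : x / s * s = x := by field_simp
  nlinarith

/-- the points of the simplex for which the coordinates contain at least `q` steps of size `s` -/
def bad (s T : ℝ) (n q : ℕ) : Set (Fin n → ℝ) :=
  {v | v ∈ simplexT T n ∧ q ≤ ∑ i, gs s (v i) + gs s (T - ∑ i, v i)}

theorem bad_succ {s T : ℝ} (hs : 0 < s) (n q : ℕ) :
    bad s T n (q + 1) ⊆ (⋃ i : Fin n, (fun v : Fin n → ℝ => v + -(Pi.single i s)) ⁻¹'
      bad s (T - s) n q) ∪ bad s (T - s) n q := by
  rintro v ⟨⟨h1, h2⟩, h3⟩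
  by_cases hi : ∃ i, 1 ≤ gs s (v i)
  · obtain ⟨i, hi⟩ := hi
    left
    refine mem_iUnion.2 ⟨i, ?_⟩
    have hvi := lt_of_gs hs hi
    have e : ∑ j, (v + -(Pi.single i s : Fin n → ℝ)) j = ∑ j, v j - s := by
      simp only [Pi.add_apply, Pi.neg_apply]
      rw [Finset.sum_add_distrib, Finset.sum_neg_distrib, Finset.sum_pi_single']
      simp
      ring
    refine ⟨⟨fun j => ?_, ?_⟩, ?_⟩
    · rcases eq_or_ne j i with h | h
      · subst h
        simp only [Pi.add_apply, Pi.neg_apply, Pi.single_eq_same]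
        linarith
      · simp only [Pi.add_apply, Pi.neg_apply, Pi.single_eq_of_ne h]
        have := h1 j
        linarith
    · simp only [] at e ⊢
      rw [e]
      linarith
    · change q ≤ ∑ j, gs s ((v + -(Pi.single i s : Fin n → ℝ)) j) +
        gs s (T - s - ∑ j, (v + -(Pi.single i s : Fin n → ℝ)) j)
      rw [e]
      have e2 : T - s - (∑ j, v j - s) = T - ∑ j, v j := by ring
      rw [e2]
      have e3 : ∑ j, gs s ((v + -(Pi.single i s : Fin n → ℝ)) j) + 1 = ∑ j, gs s (v j) := by
        rw [← Finset.add_sum_erase _ _ (Finset.mem_univ i),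
          ← Finset.add_sum_erase _ (fun j => gs s (v j)) (Finset.mem_univ i)]
        have e4 : gs s ((v + -(Pi.single i s : Fin n → ℝ)) i) = gs s (v i) - 1 := by
          rw [← gs_sub hs]
          congr 1
          simp only [Pi.add_apply, Pi.neg_apply, Pi.single_eq_same]
          ring
        have e5 : ∑ j ∈ Finset.univ.erase i, gs s ((v + -(Pi.single i s : Fin n → ℝ)) j) =
            ∑ j ∈ Finset.univ.erase i, gs s (v j) := by
          refine Finset.sum_congr rfl fun j hj => ?_
          congr 1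
          simp only [Pi.add_apply, Pi.neg_apply, Pi.single_eq_of_ne (Finset.ne_of_mem_erase hj)]
          ring
        rw [e4, e5]
        omega
      omega
  · right
    push Not at hi
    have e1 : ∑ i, gs s (v i) = 0 := Finset.sum_eq_zero fun i _ => by
      have := hi i
      omega
    rw [e1, zero_add] at h3
    have h4 := lt_of_gs hs (x := T - ∑ i, v i) (by omega)
    refine ⟨⟨h1, by linarith⟩, ?_⟩
    have e2 : T - s - ∑ i, v i = (T - ∑ i, v i) - s := by ring
    rw [e2, gs_sub hs, e1]
    omega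

/-- the volume of `bad` -/
theorem vol_bad {s : ℝ} (hs : 0 < s) (n q : ℕ) : ∀ T : ℝ,
    volume (bad s T n q) ≤ ((n : ENNReal) + 1) ^ q * volume (simplexT (T - q * s) n) := by
  induction q with
  | zero =>
    intro T
    simp only [pow_zero, one_mul, Nat.cast_zero, zero_mul, sub_zero]
    exact measure_mono fun v hv => hv.1
  | succ q ih =>
    intro T
    refine (measure_mono (bad_succ hs n q)).trans ((measure_union_le _ _).trans ?_)
    have h1 := ih (T - s)
    have e : T - s - q * s = T - ((q + 1 : ℕ) : ℝ) * s := by push_cast; ring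
    rw [e] at h1
    have h2 : volume (⋃ i : Fin n, (fun v : Fin n → ℝ => v + -(Pi.single i s)) ⁻¹'
        bad s (T - s) n q) ≤ n * volume (bad s (T - s) n q) := by
      refine (measure_iUnion_fintype_le _ _).trans ?_
      simp only [measure_preimage_add_right, Finset.sum_const, Finset.card_univ,
        Fintype.card_fin, nsmul_eq_mul]
      exact le_rfl
    calc _ ≤ n * volume (bad s (T - s) n q) + volume (bad s (T - s) n q) := add_le_add h2 le_rfl
      _ = ((n : ENNReal) + 1) * volume (bad s (T - s) n q) := by ring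
      _ ≤ ((n : ENNReal) + 1) * (((n : ENNReal) + 1) ^ q *
          volume (simplexT (T - ((q + 1 : ℕ) : ℝ) * s) n)) := by gcongr
      _ = _ := by rw [pow_succ]; ring

/-- the share of `bad` -/
theorem share_bad {s T : ℝ} (hs : 0 < s) (n q : ℕ) (hT : q * s < T) :
    volume (bad s T n q) ≤ ((n : ENNReal) + 1) ^ q * ENNReal.ofReal ((1 - q * s / T) ^ n) *
      volume (simplexT T n) := by
  have hT0 : 0 < T := lt_of_le_of_lt (by positivity) hT
  have hc : 0 < 1 - q * s / T := by rw [sub_pos, div_lt_one hT0]; exact hT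
  refine (vol_bad hs n q T).trans ?_
  rw [mul_assoc, ← vol_smul_simplex n T hc]
  gcongr
  rintro v ⟨h1, h2⟩
  refine mem_smul_simplex hc h1 ?_
  have : T * (1 - q * s / T) = T - q * s := by field_simp
  rw [this]
  exact h2

end Pool.Agent.H94C
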